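import Pool.Agent.Lib.MP_4318ff_ag.Spec.A3
import Pool.Agent.Lib.MP_4318ff_ag.A.G2
import Pool.Agent.Lib.MP_4318ff_ag.A.Glob

/-!
# MP_4318ff_ag, module C/GlobC: the global functions of case C
-/

set_option autoImplicit false

namespace Pool.Agent.Lib.MP_4318ff_ag

open scoped LinearAlgebra.Projectivization

theorem globc_log {k : Type} [Field k] (E : Derivation k (F k) (F k)) {a b : F k} (ha : a ≠ 0)
    (hb : b ≠ 0) : E (a / b) / (a / b) = E a / a - E b / b := by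
  have h3 : E (a / b * b) = a / b * E b + b * E (a / b) := by
    rw [Derivation.leibniz, smul_eq_mul, smul_eq_mul]
  rw [div_mul_cancel₀ a hb] at h3
  rw [h3]
  field_simp
  ring

theorem globc_le {k : Type} [Field k] {r : ℕ} {C : Config k r} (v : Chart C) {P : Pt k}
    (hP : P ∈ C.M) : PR P (v.a P) ≤ v.R := by
  refine Algebra.adjoin_le ?_
  rintro z ⟨c, hc, rfl⟩
  exact Algebra.subset_adjoin (Or.inr ⟨P, hP, c, hc, rfl⟩)

/-- One term of the sum at a curve. -/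
theorem globc_term {k : Type} [Field k] (hC : CurveStmt) {r : ℕ} {C : Config k r} {P : Pt k}
    (hP : P ∈ C.M) {O : Subalgebra k (F k)} (hO : IsCurve O) (v : Chart C) (hv : v.R ≤ O)
    (δ η : Derivation k (F k) (F k)) (υ : Fin r → Fin 3 → k) (hδ : RegF C P O δ)
    (hη : ∀ c : Fin 3 → k, c ⬝ᵥ P.rep = 0 → η (ev c / ev (v.a P)) ∈ PR P (v.a P))
    (hυ : ∀ i ∈ C.through P, LinearIndependent k ![C.ℓ i, v.a P] →
      ∃ g ∈ PR P (v.a P), η (ev (C.ℓ i) / ev (v.a P)) =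
        ev (υ i) / ev (v.a P) + ev (C.ℓ i) / ev (v.a P) * g)
    {i j : Fin r} (hi : i ∈ C.through P) (hj : j ∈ C.through P) (hij : i ≠ j)
    (hju : UnitForm O (C.ℓ j)) :
    (δ + η) (ev (C.ℓ i)) / ev (C.ℓ i) - (δ + η) (ev (C.ℓ j)) / ev (C.ℓ j)
      - ev (υ i) / ev (C.ℓ i) ∈ O := by
  have hi0 : ev (C.ℓ i) ≠ 0 := (glob_ne C hij).1
  have hj0 : ev (C.ℓ j) ≠ 0 := (glob_ne C hij).2
  have ha0 : ev (v.a P) ≠ 0 := ev_ne_zero (v.a_ne P hP)
  have hPR : PR P (v.a P) ≤ O := (globc_le v hP).trans hv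
  have hij' : ev (C.ℓ i) / ev (C.ℓ j) ∈ O := hju.2 _
  -- the part of `δ`
  have h1 : δ (ev (C.ℓ i)) / ev (C.ℓ i) - δ (ev (C.ℓ j)) / ev (C.ℓ j) ∈ O := by
    rw [← globc_log δ hi0 hj0]
    exact hδ.2 i hi j hj hij'
  -- the part of `η` at `j`
  have h2 : η (ev (C.ℓ j)) / ev (C.ℓ j) - η (ev (v.a P)) / ev (v.a P) ∈ O := by
    rw [← globc_log η hj0 ha0, div_div_eq_mul_div, mul_div_assoc]
    exact mul_mem (hPR (hη _ hj)) (hju.2 _)
  -- the part of `η` at `i`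
  have h3 : η (ev (C.ℓ i)) / ev (C.ℓ i) - η (ev (v.a P)) / ev (v.a P)
      - ev (υ i) / ev (C.ℓ i) ∈ O := by
    by_cases hiu : UnitForm O (C.ℓ i)
    · refine sub_mem ?_ (hiu.2 _)
      rw [← globc_log η hi0 ha0, div_div_eq_mul_div, mul_div_assoc]
      exact mul_mem (hPR (hη _ hi)) (hiu.2 _)
    · have hne : C.ℓ i ≠ 0 := (C.indep i j hij).ne_zero 0
      have hunif : IsUnif O (ev (C.ℓ i) / ev (C.ℓ j)) := by
        rcases (hC k O hO).2.2.1 (C.ℓ i) hne with h | h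
        · exact absurd h hiu
        · exact (h (C.ℓ j) (C.indep i j hij)).2
      have hli : LinearIndependent k ![C.ℓ i, v.a P] := by
        rw [LinearIndependent.pair_iff' hne]
        intro t ht
        have ht0 : t ≠ 0 := by
          rintro rfl
          rw [zero_smul] at ht
          exact v.a_ne P hP ht.symm
        have h4 : ev (C.ℓ j) / ev (v.a P) ∈ O :=
          hPR (Algebra.subset_adjoin ⟨C.ℓ j, hj, rfl⟩)
        rw [← ht, ev_smul] at h4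
        have h5 := O.smul_mem h4 t
        have ht1 : algebraMap k (F k) t ≠ 0 := by
          rw [Ne, map_eq_zero]
          exact ht0
        have h6 : t • (ev (C.ℓ j) / (algebraMap k (F k) t * ev (C.ℓ i))) =
            (ev (C.ℓ i) / ev (C.ℓ j))⁻¹ := by
          rw [Algebra.smul_def]
          field_simp
        rw [h6] at h5
        exact hunif.2.1 h5
      obtain ⟨g, hg, hg'⟩ := hυ i hi hli
      have h7 : η (ev (C.ℓ i)) / ev (C.ℓ i) - η (ev (v.a P)) / ev (v.a P)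
          - ev (υ i) / ev (C.ℓ i) = g := by
        rw [← globc_log η hi0 ha0, hg']
        field_simp
        ring
      rw [h7]
      exact hPR hg
  have h8 : (δ + η) (ev (C.ℓ i)) / ev (C.ℓ i) - (δ + η) (ev (C.ℓ j)) / ev (C.ℓ j)
      - ev (υ i) / ev (C.ℓ i) =
      (δ (ev (C.ℓ i)) / ev (C.ℓ i) - δ (ev (C.ℓ j)) / ev (C.ℓ j)) +
      (η (ev (C.ℓ i)) / ev (C.ℓ i) - η (ev (v.a P)) / ev (v.a P) - ev (υ i) / ev (C.ℓ i)) -
      (η (ev (C.ℓ j)) / ev (C.ℓ j) - η (ev (v.a P)) / ev (v.a P)) := by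
    rw [Derivation.add_apply, Derivation.add_apply]
    ring
  rw [h8]
  exact sub_mem (add_mem h1 h3) h2

/-- The sum of the terms of one point at a curve. -/
theorem globc_point {k : Type} [Field k] (hC : CurveStmt) {r : ℕ} {C : Config k r} {P : Pt k}
    (hP : P ∈ C.M) {O : Subalgebra k (F k)} (hO : IsCurve O) (v : Chart C) (hv : v.R ≤ O)
    (δ η : Derivation k (F k) (F k)) (υ : Fin r → Fin 3 → k) (hδ : RegF C P O δ)
    (hη : ∀ c : Fin 3 → k, c ⬝ᵥ P.rep = 0 → η (ev c / ev (v.a P)) ∈ PR P (v.a P))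
    (hυ : ∀ i ∈ C.through P, LinearIndependent k ![C.ℓ i, v.a P] →
      ∃ g ∈ PR P (v.a P), η (ev (C.ℓ i) / ev (v.a P)) =
        ev (υ i) / ev (v.a P) + ev (C.ℓ i) / ev (v.a P) * g)
    (s : Fin r → k) (hs0 : ∀ i, i ∉ C.through P → s i = 0) (hs1 : ∑ i, s i = 0) :
    ∑ i, algebraMap k (F k) (s i) *
      ((δ + η) (ev (C.ℓ i)) / ev (C.ℓ i) - ev (υ i) / ev (C.ℓ i)) ∈ O := by
  -- a unit form
  obtain ⟨j, hj, hju⟩ : ∃ j ∈ C.through P, UnitForm O (C.ℓ j) := by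
    have hcard : 1 < (C.through P).ncard := lt_of_lt_of_le (by norm_num) hP
    obtain ⟨i₁, h₁, i₂, h₂, h12⟩ := (Set.one_lt_ncard (Set.toFinite _)).1 hcard
    by_cases h : UnitForm O (C.ℓ i₁)
    · exact ⟨i₁, h₁, h⟩
    · refine ⟨i₂, h₂, ?_⟩
      rcases (hC k O hO).2.2.1 (C.ℓ i₁) ((C.indep i₁ i₂ h12).ne_zero 0) with h' | h'
      · exact absurd h' h
      · exact (h' (C.ℓ i₂) (C.indep i₁ i₂ h12)).1
  have h1 : ∑ i, algebraMap k (F k) (s i) *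
      ((δ + η) (ev (C.ℓ i)) / ev (C.ℓ i) - ev (υ i) / ev (C.ℓ i)) =
      ∑ i, algebraMap k (F k) (s i) *
      ((δ + η) (ev (C.ℓ i)) / ev (C.ℓ i) - (δ + η) (ev (C.ℓ j)) / ev (C.ℓ j)
        - ev (υ i) / ev (C.ℓ i)) := by
    have h2 : ∀ i, algebraMap k (F k) (s i) *
      ((δ + η) (ev (C.ℓ i)) / ev (C.ℓ i) - (δ + η) (ev (C.ℓ j)) / ev (C.ℓ j)
        - ev (υ i) / ev (C.ℓ i)) = algebraMap k (F k) (s i) *
      ((δ + η) (ev (C.ℓ i)) / ev (C.ℓ i) - ev (υ i) / ev (C.ℓ i)) -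
        algebraMap k (F k) (s i) * ((δ + η) (ev (C.ℓ j)) / ev (C.ℓ j)) := fun i => by ring
    rw [Finset.sum_congr rfl fun i _ => h2 i, Finset.sum_sub_distrib, ← Finset.sum_mul, ← map_sum,
      hs1, map_zero, zero_mul, sub_zero]
  rw [h1]
  refine sum_mem fun i _ => ?_
  by_cases hi : i ∈ C.through P
  · refine mul_mem (O.algebraMap_mem _) ?_
    by_cases hij : i = j
    · subst hij
      rw [sub_self, zero_sub]
      exact neg_mem (hju.2 _)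
    · exact globc_term hC hP hO v hv δ η υ hδ hη hυ hi hj hij hju
  · rw [hs0 i hi, map_zero, zero_mul]
    exact zero_mem _

theorem tGlobC : EvStmt → UnifStmt → CurveStmt → ChartExStmt → ConstStmt → PolarStmt → GlobCStmt := by
  intro _ _ hC hCh hConst _ k _ _ _ r C S hS D δ η υ H1 H2 H3 H4 ρ hρ hρ' y u
  have hs0 : ∀ P ∈ S, ∀ i, i ∉ C.through P → ρ P i * (C.ℓ i ⬝ᵥ y) = 0 := by
    intro P hP i hi
    rw [(hρ P hP).1 i hi, zero_mul]
  have hs1 : ∀ P ∈ S, ∑ i, ρ P i * (C.ℓ i ⬝ᵥ y) = 0 := by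
    intro P hP
    have h := congrArg (fun z : Fin 3 → k => z ⬝ᵥ y) (hρ P hP).2
    simp only [sum_dotProduct, smul_dotProduct, zero_dotProduct, smul_eq_mul] at h
    exact h
  have hs2 : ∀ i, ∑ P ∈ S, ρ P i * (C.ℓ i ⬝ᵥ y) = 0 := by
    intro i
    rw [← Finset.sum_mul, hρ' i, zero_mul]
  refine hConst k _ fun O hO => ?_
  obtain ⟨v, hv⟩ := hCh k r C O (Or.inl hO)
  have hG := tGlob k r C (F k) S (D u v) (fun P => δ P u + η P (u.a P))
    (fun P => δ P v + η P (v.a P)) (fun P i => ρ P i * (C.ℓ i ⬝ᵥ y))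
    (fun P hP c c' hc hc' => H4 P hP u v c c' hc hc') hs0 hs1 hs2
  have hG' : ∑ P ∈ S, ∑ i, algebraMap k (F k) (ρ P i * (C.ℓ i ⬝ᵥ y)) *
      ((δ P u + η P (u.a P)) (ev (C.ℓ i)) / ev (C.ℓ i)) =
      ∑ P ∈ S, ∑ i, algebraMap k (F k) (ρ P i * (C.ℓ i ⬝ᵥ y)) *
      ((δ P v + η P (v.a P)) (ev (C.ℓ i)) / ev (C.ℓ i)) := hG
  have h1 : ∑ P ∈ S, ∑ i, algebraMap k (F k) (ρ P i * (C.ℓ i ⬝ᵥ y)) *
      ((δ P u + η P (u.a P)) (ev (C.ℓ i)) / ev (C.ℓ i) - ev (υ P i) / ev (C.ℓ i)) =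
      ∑ P ∈ S, ∑ i, algebraMap k (F k) (ρ P i * (C.ℓ i ⬝ᵥ y)) *
      ((δ P v + η P (v.a P)) (ev (C.ℓ i)) / ev (C.ℓ i) - ev (υ P i) / ev (C.ℓ i)) := by
    simp only [mul_sub, Finset.sum_sub_distrib]
    rw [hG']
  rw [h1]
  refine sum_mem fun P hP => ?_
  exact globc_point hC (hS P hP) hO v hv (δ P v) (η P (v.a P)) (υ P)
    (H1 P hP v O (Or.inl hO) hv)
    (fun c hc => H2 P hP (v.a P) c (v.a_ne P (hS P hP)) (v.a_through P (hS P hP)) hc)
    (fun i hi hli => H3 P hP i hi (v.a P) (v.a_through P (hS P hP)) hli)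
    (fun i => ρ P i * (C.ℓ i ⬝ᵥ y)) (hs0 P hP) (hs1 P hP)

end Pool.Agent.Lib.MP_4318ff_ag
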