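import Pool.Agent.Lib.MP_4318ff_ag.Spec.A3
import Pool.Agent.Lib.MP_4318ff_ag.A.G2
import Pool.Agent.Lib.MP_4318ff_ag.A.Glob
import Pool.Agent.Lib.MP_4318ff_ag.LA.Pnt
import Pool.Agent.Lib.MP_4318ff_ag.C.GlobC

/-!
# MP_4318ff_ag, module C/CaseF: invariant cocycles on the plane
-/

set_option autoImplicit false

namespace Pool.Agent.Lib.MP_4318ff_ag

open scoped LinearAlgebra.Projectivization

theorem casef_ev_sum {k : Type} [Field k] {ι : Type} (s : Finset ι) (g : ι → Fin 3 → k) :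
    ev (∑ i ∈ s, g i) = ∑ i ∈ s, ev (g i) := by
  classical
  induction s using Finset.induction_on with
  | empty => simp [ev_zero]
  | insert a s ha ih => rw [Finset.sum_insert ha, Finset.sum_insert ha, ev_add, ih]

/-- From the constants to the relation of `LA7Stmt`. -/
theorem casef_glob {k : Type} [Field k] {r : ℕ} {C : Config k r} (h0 : ∀ i, ev (C.ℓ i) ≠ 0)
    (S : Finset (Pt k)) (f : Pt k → Derivation k (F k) (F k)) (υ : Pt k → Fin r → Fin 3 → k)
    (ρ : Pt k → Fin r → k) (hρ : ∀ P ∈ S, ∑ i, ρ P i • C.ℓ i = 0)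
    (G : ∀ y : Fin 3 → k, ∃ t : k, ∑ P ∈ S, ∑ i, algebraMap k (F k) (ρ P i * (C.ℓ i ⬝ᵥ y)) *
      ((f P) (ev (C.ℓ i)) / ev (C.ℓ i) - ev (υ P i) / ev (C.ℓ i)) = algebraMap k (F k) t)
    (y : Fin 3 → k) :
    ∑ P ∈ S, ∑ i, ρ P i • ((C.ℓ i ⬝ᵥ y) •
      ((f P) (ev (C.ℓ i)) / ev (C.ℓ i) - ev (υ P i) / ev (C.ℓ i)) +
        algebraMap k (F k) (υ P i ⬝ᵥ y)) = 0 := by
  choose t ht using G
  obtain ⟨T, hT⟩ : ∃ T : Pt k → Fin r → F k, ∀ P i, T P i =
      (f P) (ev (C.ℓ i)) / ev (C.ℓ i) - ev (υ P i) / ev (C.ℓ i) := ⟨_, fun _ _ => rfl⟩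
  simp only [← hT] at ht ⊢
  set φ := algebraMap k (F k) with hφ
  -- linearity in `y`
  have hlin : ∀ (z : Fin 3 → k), ∑ P ∈ S, ∑ i, φ (ρ P i * (C.ℓ i ⬝ᵥ z)) * T P i =
      ∑ j, φ (z j) * φ (t (Pi.single j 1)) := by
    intro z
    have h1 : ∀ j, φ (t (Pi.single j 1)) = ∑ P ∈ S, ∑ i, φ (ρ P i * (C.ℓ i j)) * T P i := by
      intro j
      rw [← ht (Pi.single j 1)]
      refine Finset.sum_congr rfl fun P _ => Finset.sum_congr rfl fun i _ => ?_
      rw [dotProduct_single, mul_one]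
    have h2 : ∑ j, φ (z j) * φ (t (Pi.single j 1)) =
        ∑ j, ∑ P ∈ S, ∑ i, φ (ρ P i * (C.ℓ i j * z j)) * T P i := by
      refine Finset.sum_congr rfl fun j _ => ?_
      rw [h1 j, Finset.mul_sum]
      refine Finset.sum_congr rfl fun P _ => ?_
      rw [Finset.mul_sum]
      refine Finset.sum_congr rfl fun i _ => ?_
      simp only [map_mul]
      ring
    rw [h2]
    refine Eq.trans ?_ Finset.sum_comm
    refine Finset.sum_congr rfl fun P _ => ?_
    refine Eq.trans ?_ Finset.sum_comm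
    refine Finset.sum_congr rfl fun i _ => ?_
    have h9 : C.ℓ i ⬝ᵥ z = ∑ j, C.ℓ i j * z j := rfl
    rw [← Finset.sum_mul, h9, Finset.mul_sum, map_sum]
  -- the form `c`
  let c : Fin 3 → k := fun j => t (Pi.single j 1)
  have hc : ev c = - ∑ P ∈ S, ∑ i, φ (ρ P i) * ev (υ P i) := by
    have h1 : ev c = ∑ j, (∑ P ∈ S, ∑ i, φ (ρ P i * (C.ℓ i j)) * T P i) * gen k j := by
      refine Finset.sum_congr rfl fun j _ => ?_
      have h2 : φ (c j) = ∑ P ∈ S, ∑ i, φ (ρ P i * (C.ℓ i j)) * T P i := by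
        change φ (t (Pi.single j 1)) = _
        rw [← ht (Pi.single j 1)]
        refine Finset.sum_congr rfl fun P _ => Finset.sum_congr rfl fun i _ => ?_
        rw [dotProduct_single, mul_one]
      rw [← h2]
    have h3 : ev c = ∑ P ∈ S, ∑ i, φ (ρ P i) * (ev (C.ℓ i) * T P i) := by
      rw [h1]
      simp only [Finset.sum_mul]
      rw [Finset.sum_comm]
      refine Finset.sum_congr rfl fun P _ => ?_
      rw [Finset.sum_comm]
      refine Finset.sum_congr rfl fun i _ => ?_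
      rw [ev, Finset.sum_mul, Finset.mul_sum]
      refine Finset.sum_congr rfl fun j _ => ?_
      rw [map_mul]
      ring
    have h4 : ∀ P ∈ S, ∑ i, φ (ρ P i) * (ev (C.ℓ i) * T P i) =
        - ∑ i, φ (ρ P i) * ev (υ P i) := by
      intro P hP
      have h5 : ∀ i, φ (ρ P i) * (ev (C.ℓ i) * T P i) =
          f P (ev (ρ P i • C.ℓ i)) - φ (ρ P i) * ev (υ P i) := by
        intro i
        have h6 : f P (ev (ρ P i • C.ℓ i)) = φ (ρ P i) * f P (ev (C.ℓ i)) := by
          rw [ev_smul, ← Algebra.smul_def, Derivation.map_smul, Algebra.smul_def]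
        rw [h6, hT]
        have := h0 i
        field_simp
      rw [Finset.sum_congr rfl fun i _ => h5 i, Finset.sum_sub_distrib, ← map_sum,
        ← casef_ev_sum, hρ P hP, ev_zero, map_zero, zero_sub]
    rw [h3, Finset.sum_congr rfl h4, Finset.sum_neg_distrib]
  have hc' : c = - ∑ P ∈ S, ∑ i, ρ P i • υ P i := by
    apply ev_injective
    rw [hc, ev_neg, casef_ev_sum]
    refine congrArg _ (Finset.sum_congr rfl fun P _ => ?_)
    rw [casef_ev_sum]
    exact Finset.sum_congr rfl fun i _ => (ev_smul _ _).symm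
  have h7 : ∑ P ∈ S, ∑ i, ρ P i • ((C.ℓ i ⬝ᵥ y) • T P i + φ (υ P i ⬝ᵥ y)) =
      ∑ P ∈ S, ∑ i, φ (ρ P i * (C.ℓ i ⬝ᵥ y)) * T P i +
        φ ((∑ P ∈ S, ∑ i, ρ P i • υ P i) ⬝ᵥ y) := by
    rw [sum_dotProduct, map_sum, ← Finset.sum_add_distrib]
    refine Finset.sum_congr rfl fun P _ => ?_
    rw [sum_dotProduct, map_sum, ← Finset.sum_add_distrib]
    refine Finset.sum_congr rfl fun i _ => ?_
    rw [smul_dotProduct, smul_eq_mul, map_mul, map_mul, smul_add, smul_smul, Algebra.smul_def,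
      Algebra.smul_def, map_mul]
  rw [h7, hlin y]
  have h8 : ∑ j, φ (y j) * φ (t (Pi.single j 1)) = φ (c ⬝ᵥ y) := by
    rw [dotProduct, map_sum]
    refine Finset.sum_congr rfl fun j _ => ?_
    rw [map_mul, mul_comm]
  rw [h8, hc', neg_dotProduct, map_neg, neg_add_cancel]

theorem casef_quot {k : Type} [Field k] (E : Derivation k (F k) (F k))
    (A : Matrix (Fin 3) (Fin 3) k) (v0 : F k)
    (hE : ∀ c : Fin 3 → k, E (ev c) = ev (Matrix.vecMul c A) - v0 * ev c) {c a : Fin 3 → k}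
    (ha : ev a ≠ 0) :
    E (ev c / ev a) = ev (Matrix.vecMul c A) / ev a -
      ev c / ev a * (ev (Matrix.vecMul a A) / ev a) := by
  have h3 : E (ev c / ev a * ev a) = ev c / ev a * E (ev a) + ev a * E (ev c / ev a) := by
    rw [Derivation.leibniz, smul_eq_mul, smul_eq_mul]
  rw [div_mul_cancel₀ _ ha, hE, hE] at h3
  have h4 : E (ev c / ev a) = (ev (Matrix.vecMul c A) - v0 * ev c -
      ev c / ev a * (ev (Matrix.vecMul a A) - v0 * ev a)) / ev a := by
    rw [eq_div_iff ha, h3]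
    ring
  rw [h4]
  field_simp
  ring

/-- Regularity of the corrected pencil field. -/
theorem casef_reg {k : Type} [Field k] {r : ℕ} {C : Config k r} {P : Pt k} 
    {O : Subalgebra k (F k)} {a : Fin 3 → k} (ha : a ≠ 0) (haP : a ⬝ᵥ P.rep = 0)
    (hO : PR P a ≤ O) (h0 : ∀ i, C.ℓ i ≠ 0) (E : Derivation k (F k) (F k))
    (h1 : ∀ c : Fin 3 → k, c ⬝ᵥ P.rep = 0 → E (ev c / ev a) ∈ PR P a)
    (h2 : ∀ i ∈ C.through P, LinearIndependent k ![C.ℓ i, a] →
      ∃ g ∈ PR P a, E (ev (C.ℓ i) / ev a) = ev (C.ℓ i) / ev a * g) :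
    RegF C P O E := by
  have ha0 : ev a ≠ 0 := ev_ne_zero ha
  have hconst : ∀ t : k, E (algebraMap k (F k) t) = 0 := fun t => E.map_algebraMap t
  constructor
  · intro c c' hc hc' hcc
    by_cases hc0 : c' = 0
    · rw [hc0, ev_zero, div_zero, map_zero]
      exact zero_mem _
    have hc'0 : ev c' ≠ 0 := ev_ne_zero hc0
    by_cases hli : LinearIndependent k ![c', c]
    · obtain ⟨x, y, hxy⟩ := (tPnt k).2.1 P c' c a hli hc' hc haP
      have h3 : ev a / ev c' ∈ O := by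
        have h4 : ev a / ev c' = algebraMap k (F k) x + algebraMap k (F k) y * (ev c / ev c') := by
          rw [hxy, ev_add, ev_smul, ev_smul]
          field_simp
        rw [h4]
        exact add_mem (O.algebraMap_mem _) (mul_mem (O.algebraMap_mem _) hcc)
      have h5 : E (ev c / ev c') = ev a / ev c' *
          (E (ev c / ev a) - ev c / ev c' * E (ev c' / ev a)) := by
        have h6 : ev c / ev a = ev c / ev c' * (ev c' / ev a) := by
          field_simp
        have h7 : E (ev c / ev a) = ev c / ev c' * E (ev c' / ev a) +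
            ev c' / ev a * E (ev c / ev c') := by
          conv_lhs => rw [h6]
          rw [Derivation.leibniz, smul_eq_mul, smul_eq_mul]
        rw [h7]
        field_simp
        ring
      rw [h5]
      exact mul_mem h3 (sub_mem (hO (h1 c hc)) (mul_mem hcc (hO (h1 c' hc'))))
    · rw [LinearIndependent.pair_iff' hc0] at hli
      push Not at hli
      obtain ⟨s, hs⟩ := hli
      rw [← hs, ev_smul, mul_div_assoc, div_self hc'0, mul_one, hconst]
      exact zero_mem _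
  · intro i hi j hj hij
    have key : ∀ i ∈ C.through P, E (ev (C.ℓ i)) / ev (C.ℓ i) - E (ev a) / ev a ∈ O := by
      intro i hi
      have hi0 : ev (C.ℓ i) ≠ 0 := ev_ne_zero (h0 i)
      rw [← globc_log E hi0 ha0]
      by_cases hli : LinearIndependent k ![C.ℓ i, a]
      · obtain ⟨g, hg, hg'⟩ := h2 i hi hli
        rw [hg', mul_div_cancel_left₀ g (div_ne_zero hi0 ha0)]
        exact hO hg
      · rw [LinearIndependent.pair_iff' (h0 i)] at hli
        push Not at hli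
        obtain ⟨s, hs⟩ := hli
        have hs0 : s ≠ 0 := by
          rintro rfl
          rw [zero_smul] at hs
          exact ha hs.symm
        have h3 : ev (C.ℓ i) / ev a = algebraMap k (F k) s⁻¹ := by
          have h4 : algebraMap k (F k) s ≠ 0 := by
            rw [Ne, map_eq_zero]
            exact hs0
          rw [← hs, ev_smul, map_inv₀]
          field_simp
        rw [h3, hconst, zero_div]
        exact zero_mem _
    have hi0 : ev (C.ℓ i) ≠ 0 := ev_ne_zero (h0 i)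
    have hj0 : ev (C.ℓ j) ≠ 0 := ev_ne_zero (h0 j)
    rw [globc_log E hi0 hj0]
    have h8 := sub_mem (key i hi) (key j hj)
    rw [sub_sub_sub_cancel_right] at h8
    exact h8

theorem casef_regadd {k : Type} [Field k] {r : ℕ} {C : Config k r} {P : Pt k}
    {O : Subalgebra k (F k)} {E E' : Derivation k (F k) (F k)} (h : RegF C P O E)
    (h' : RegF C P O E') : RegF C P O (E + E') := by
  constructor
  · intro c c' hc hc' hcc
    rw [Derivation.add_apply]
    exact add_mem (h.1 c c' hc hc' hcc) (h'.1 c c' hc hc' hcc)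
  · intro i hi j hj hij
    rw [Derivation.add_apply, add_div]
    exact add_mem (h.2 i hi j hj hij) (h'.2 i hi j hj hij)

theorem tCaseF : EvStmt → MFinStmt → SplitStmt → PolarStmt → GlobCStmt → LA7Stmt → DerVStmt →
    PenStmt → CaseFStmt := by
  intro _ hM hSp hPo hGl hLA hDV _ k _ _ _ r C hI hr D hD hE
  have hℓ : ∀ i, C.ℓ i ≠ 0 := by
    intro i
    obtain ⟨j, hj⟩ : ∃ j : Fin r, i ≠ j := by
      by_cases h : i = ⟨0, by omega⟩
      · exact ⟨⟨1, by omega⟩, by rw [h]; simp [Fin.ext_iff]⟩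
      · exact ⟨⟨0, by omega⟩, h⟩
    exact (C.indep i j hj).ne_zero 0
  by_cases hne : Nonempty (Chart C)
  swap
  · intro P hP
    exact ⟨fun u => absurd ⟨u⟩ hne, fun u => absurd ⟨u⟩ hne, fun u => absurd ⟨u⟩ hne⟩
  obtain ⟨u₀⟩ := hne
  have hex : ∀ P : Pt k, ∃ (δ : Chart C → Derivation k (F k) (F k))
      (η : (Fin 3 → k) → Derivation k (F k) (F k)) (υ : Fin r → Fin 3 → k), P ∈ C.M →
      (∀ u O, IsDiv C O → u.R ≤ O → RegF C P O (δ u)) ∧
      (∀ a c : Fin 3 → k, a ≠ 0 → a ⬝ᵥ P.rep = 0 → c ⬝ᵥ P.rep = 0 → η a (ev c / ev a) ∈ PR P a) ∧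
      (∀ u v : Chart C, EqOnF P (D u v) (δ v + η (v.a P) - (δ u + η (u.a P)))) ∧
      (∀ i, υ i ⬝ᵥ P.rep = 0) ∧
      (∀ i ∈ C.through P, ∀ a : Fin 3 → k, a ⬝ᵥ P.rep = 0 → LinearIndependent k ![C.ℓ i, a] →
        ∃ g ∈ PR P a, η a (ev (C.ℓ i) / ev a) = ev (υ i) / ev a + ev (C.ℓ i) / ev a * g) := by
    intro P
    by_cases hP : P ∈ C.M
    swap
    · exact ⟨fun _ => 0, fun _ => 0, fun _ => 0, fun h => absurd h hP⟩
    obtain ⟨δ, ε, h1, h2, h3⟩ := hE P hP
    obtain ⟨η, hη1, hη2⟩ := hSp k r C P hP D hD δ ε h2 h3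
    obtain ⟨υ, hυ1, hυ2⟩ := hPo k r C P hP ε η
      (fun a a' ha ha' haP haP' => (h2 a a' ha ha' haP haP').1) hη1 hη2
    refine ⟨δ, η, υ, fun _ => ⟨h1, hη1, ?_, hυ1, hυ2⟩⟩
    intro u v c c' hc hc'
    have h4 := h3 u v c c' hc hc'
    have h5 := hη2 (u.a P) (v.a P) (u.a_ne P hP) (v.a_ne P hP) (u.a_through P hP)
      (v.a_through P hP) c c' hc hc'
    simp only [Derivation.add_apply, Derivation.sub_apply] at h4 h5 ⊢
    rw [h4, h5]
    ring
  choose δ η υ hprop using hex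
  let S : Finset (Pt k) := (hM k r C).toFinset
  have hS : ∀ P, P ∈ S ↔ P ∈ C.M := fun P => Set.Finite.mem_toFinset _
  have hrel := hLA k r C hI hr S hS (F k)
    (fun P i => (δ P u₀ + η P (u₀.a P)) (ev (C.ℓ i)) / ev (C.ℓ i) - ev (υ P i) / ev (C.ℓ i)) υ
    (fun P hP i _ => (hprop P ((hS P).1 hP)).2.2.2.1 i)
    (fun ρ _ hρ hρ' y => by
      refine casef_glob (fun i => ev_ne_zero (hℓ i)) S (fun P => δ P u₀ + η P (u₀.a P)) υ ρ
        (fun P hP => (hρ P hP).2) (fun y => ?_) y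
      exact hGl k r C S (fun P hP => (hS P).1 hP) D δ η υ
        (fun P hP u O => (hprop P ((hS P).1 hP)).1 u O)
        (fun P hP => (hprop P ((hS P).1 hP)).2.1)
        (fun P hP => (hprop P ((hS P).1 hP)).2.2.2.2)
        (fun P hP => (hprop P ((hS P).1 hP)).2.2.1) ρ hρ hρ' y u₀)
  intro P hP
  obtain ⟨A, γ, hA⟩ := hrel P ((hS P).2 hP)
  obtain ⟨hp1, hp2, hp3, hp4, hp5⟩ := hprop P hP
  -- the derivation `ξ`
  obtain ⟨ξ, hξ⟩ := hDV k (F k) (fun i => ev (A i))
  have hξ' : ∀ c : Fin 3 → k, ξ (ev c) = ev (Matrix.vecMul c A) - ev (A 0) * ev c := by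
    intro c
    have h1 : ξ (ev c) = ∑ i, algebraMap k (F k) (c i) * ev (A i) - ev (A 0) * ev c := hξ c
    rw [h1]
    congr 1
    have h2 : Matrix.vecMul c A = ∑ i, c i • A i := by
      ext j
      simp [Matrix.vecMul, dotProduct, Finset.sum_apply]
    rw [h2, casef_ev_sum]
    exact Finset.sum_congr rfl fun i _ => (ev_smul _ _).symm
  have hAP : ∀ c : Fin 3 → k, c ⬝ᵥ P.rep = 0 → Matrix.vecMul c A ⬝ᵥ P.rep = 0 := by
    have h1 : ∀ i ∈ C.through P, Matrix.vecMul (C.ℓ i) A ⬝ᵥ P.rep = 0 := by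
      intro i hi
      have h2 := hp4 i
      rw [hA i hi, add_dotProduct, smul_dotProduct, show C.ℓ i ⬝ᵥ P.rep = 0 from hi, smul_zero,
        add_zero] at h2
      exact h2
    intro c hc
    have hcard : 1 < (C.through P).ncard := lt_of_lt_of_le (by norm_num) hP
    obtain ⟨i₁, h₁, i₂, h₂, h12⟩ := (Set.one_lt_ncard (Set.toFinite _)).1 hcard
    obtain ⟨x, y, hxy⟩ := (tPnt k).2.1 P (C.ℓ i₁) (C.ℓ i₂) c (C.indep i₁ i₂ h12) h₁ h₂ hc
    rw [hxy, Matrix.add_vecMul, Matrix.smul_vecMul, Matrix.smul_vecMul, add_dotProduct,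
      smul_dotProduct, smul_dotProduct, h1 i₁ h₁, h1 i₂ h₂, smul_zero, smul_zero, add_zero]
  refine ⟨fun u => δ P u + (η P (u.a P) - ξ), ?_, ?_⟩
  · intro u O hO hu
    refine casef_regadd (hp1 u O hO hu) ?_
    have ha := u.a_ne P hP
    have haP := u.a_through P hP
    have ha0 : ev (u.a P) ≠ 0 := ev_ne_zero ha
    refine casef_reg ha haP ((globc_le u hP).trans hu) hℓ _ ?_ ?_
    · intro c hc
      rw [Derivation.sub_apply, casef_quot ξ A _ hξ' ha0]
      refine sub_mem (hp2 _ c ha haP hc) (sub_mem ?_ (mul_mem ?_ ?_))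
      · exact Algebra.subset_adjoin ⟨_, hAP c hc, rfl⟩
      · exact Algebra.subset_adjoin ⟨_, hc, rfl⟩
      · exact Algebra.subset_adjoin ⟨_, hAP _ haP, rfl⟩
    · intro i hi hli
      obtain ⟨g, hg, hg'⟩ := hp5 i hi (u.a P) haP hli
      refine ⟨g + algebraMap k (F k) (γ i) + ev (Matrix.vecMul (u.a P) A) / ev (u.a P),
        add_mem (add_mem hg ((PR P (u.a P)).algebraMap_mem _))
          (Algebra.subset_adjoin ⟨_, hAP _ haP, rfl⟩), ?_⟩
      rw [Derivation.sub_apply, casef_quot ξ A _ hξ' ha0, hg', hA i hi, ev_add, ev_smul]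
      field_simp
      ring
  · intro u v c c' hc hc'
    have h1 := hp3 u v c c' hc hc'
    simp only [Derivation.add_apply, Derivation.sub_apply] at h1 ⊢
    rw [h1]
    ring

end Pool.Agent.Lib.MP_4318ff_ag
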