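import Pool.Agent.Lib.MP_4318ff_ag.Spec.A3

/-!
# MP_4318ff_ag, module C/Const: functions regular at all curves of the plane are constant
-/

set_option autoImplicit false

namespace Pool.Agent.Lib.MP_4318ff_ag

open scoped LinearAlgebra.Projectivization

section

variable {k : Type} [Field k]

private theorem const_li1 : LinearIndependent k
    ![(![1, 0, 0] : Fin 3 → k), ![0, 1, 0], ![0, 0, 1]] := by
  rw [Fintype.linearIndependent_iff]
  intro g hg i
  rw [Fin.sum_univ_three] at hg
  have h0 := congrFun hg 0
  have h1 := congrFun hg 1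
  have h2 := congrFun hg 2
  fin_cases i
  · simpa using h0
  · simpa using h1
  · simpa using h2

private theorem const_li2 : LinearIndependent k
    ![(![0, 1, 0] : Fin 3 → k), ![1, 0, 0], ![0, 0, 1]] := by
  rw [Fintype.linearIndependent_iff]
  intro g hg i
  rw [Fin.sum_univ_three] at hg
  have h0 := congrFun hg 0
  have h1 := congrFun hg 1
  have h2 := congrFun hg 2
  fin_cases i
  · simpa using h1
  · simpa using h0
  · simpa using h2

end

/-- Functions which are regular at all curves are constant. -/
theorem tConst : EvStmt → CoordStmt → CurveStmt → LocStmt → HartAStmt → OrdStmt → ConstStmt := by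
  intro hEv hCo _ hLoc hH hOrd k _ f hf
  set b : Fin 3 → k := ![1, 0, 0] with hb
  set c : Fin 3 → k := ![0, 1, 0] with hc
  set d : Fin 3 → k := ![0, 0, 1] with hd
  have li1 : LinearIndependent k ![b, c, d] := const_li1
  have li2 : LinearIndependent k ![c, b, d] := const_li2
  have hb0 : b ≠ 0 := li1.ne_zero 0
  have eb0 : ev b ≠ 0 := fun h => hb0 (((hEv k).2.2 b).1 h)
  obtain ⟨h, hh⟩ := hH k b c d li1 f fun O hO _ => hf O hO
  set z : F k := ev c / ev b with hz
  set w : F k := ev d / ev b with hw
  have e1 : 1 / z = ev b / ev c := by rw [hz, one_div_div]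
  have e2 : w / z = ev d / ev c := by
    rw [hw, hz, div_div_div_cancel_right₀ eb0]
  have co1 : IsCoord z w := (hCo k b c d li1).1
  have co2 : IsCoord (1 / z) (w / z) := by
    rw [e1, e2]
    exact (hCo k c b d li2).1
  have hirr : Irreducible (MvPolynomial.X 0 : MvPolynomial (Fin 2) k) :=
    MvPolynomial.X_prime.irreducible
  obtain ⟨O, hO⟩ := (hLoc k (1 / z) (w / z) co2 _ hirr).1
  have hcurve : IsCurve O := by
    refine ⟨c, b, d, MvPolynomial.X 0, li2, ?_⟩
    rw [← e1, ← e2]
    exact hO
  have hfO := hf O hcurve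
  have key := ((hOrd k z w h 0 co1).2 O co2 hO).1 (by
    rw [pow_zero, div_one, ← hh]
    exact hfO)
  have hsup : ∀ m ∈ h.support, m = 0 := by
    intro m hm
    have h1 := key m hm
    ext i
    fin_cases i
    · have : m 0 = 0 := by omega
      exact this
    · have : m 1 = 0 := by omega
      exact this
  have hhC : h = MvPolynomial.C (MvPolynomial.coeff 0 h) := by
    ext m
    rw [MvPolynomial.coeff_C]
    split_ifs with h0
    · rw [h0]
    · by_contra hne
      exact h0 (hsup m (MvPolynomial.mem_support_iff.2 hne)).symm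
  refine ⟨MvPolynomial.coeff 0 h, ?_⟩
  rw [hh, hhC]
  unfold cm
  rw [MvPolynomial.aeval_C, MvPolynomial.coeff_C, if_pos rfl]

end Pool.Agent.Lib.MP_4318ff_ag
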