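import Pool.Agent.Lib.MP_4318ff_ag.Spec.A3

/-!
# MP_4318ff_ag, module C/PenPoly: regular functions on a pencil
-/

set_option autoImplicit false

namespace Pool.Agent.Lib.MP_4318ff_ag

open scoped LinearAlgebra.Projectivization
open Polynomial

private theorem penpoly_aeval {k E : Type} [Field k] [Field E] [Algebra k E] {lam : E}
    {S : Subalgebra k E} (hS : lam ∈ S) (r : k[X]) : aeval lam r ∈ S := by
  have h : aeval lam r = S.val (aeval (⟨lam, hS⟩ : S) r) := by
    rw [← aeval_algHom_apply]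
    rfl
  rw [h]
  exact Subtype.property _

/-- The inductive core. -/
private theorem penpoly_core {k E : Type} [Field k] [IsAlgClosed k] [Field E] [Algebra k E]
    (lam : E) (S : Subalgebra k E) (hS : lam ∈ S) (O : k → Subalgebra k E)
    (h1 : ∀ t, lam ∈ O t)
    (h2 : ∀ t (r s : k[X]), r.eval t ≠ 0 → s.eval t = 0 → aeval lam r ≠ 0 → aeval lam s ≠ 0 →
      aeval lam r / aeval lam s ∉ O t) :
    ∀ (n : ℕ) (r s : k[X]), s.natDegree = n → aeval lam r ≠ 0 → aeval lam s ≠ 0 →
      (∀ t : k, (lam - algebraMap k E t)⁻¹ ∈ S ∨ aeval lam r / aeval lam s ∈ O t) →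
      aeval lam r / aeval lam s ∈ S := by
  intro n
  induction n with
  | zero =>
    intro r s hs hr0 hs0 _
    obtain ⟨c, rfl⟩ := natDegree_eq_zero.1 hs
    rw [aeval_C, div_eq_mul_inv, ← map_inv₀]
    exact mul_mem (penpoly_aeval hS r) (S.algebraMap_mem _)
  | succ n ih =>
    intro r s hs hr0 hs0 H
    have hsd : s.degree ≠ 0 := by
      intro h
      have h' := natDegree_eq_zero_iff_degree_le_zero.2 h.le
      omega
    obtain ⟨t, ht⟩ := IsAlgClosed.exists_root s hsd
    obtain ⟨s1, rfl⟩ := dvd_iff_isRoot.2 ht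
    have hs1 : s1.natDegree = n := by
      have hne : s1 ≠ 0 := by
        rintro rfl
        rw [mul_zero, map_zero] at hs0
        exact hs0 rfl
      rw [natDegree_mul (X_sub_C_ne_zero t) hne, natDegree_X_sub_C] at hs
      omega
    have hs10 : aeval lam s1 ≠ 0 := by
      intro h
      rw [map_mul, h, mul_zero] at hs0
      exact hs0 rfl
    have ht0 : lam - algebraMap k E t ≠ 0 := by
      intro h
      rw [map_mul, map_sub, aeval_X, aeval_C, h, zero_mul] at hs0
      exact hs0 rfl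
    by_cases hrt : r.eval t = 0
    · obtain ⟨r1, rfl⟩ := dvd_iff_isRoot.2 hrt
      have hr10 : aeval lam r1 ≠ 0 := by
        intro h
        rw [map_mul, h, mul_zero] at hr0
        exact hr0 rfl
      have e : aeval lam ((X - C t) * r1) / aeval lam ((X - C t) * s1) =
          aeval lam r1 / aeval lam s1 := by
        rw [map_mul, map_mul, map_sub, aeval_X, aeval_C, mul_div_mul_left _ _ ht0]
      rw [e] at H ⊢
      exact ih r1 s1 hs1 hr10 hs10 H
    · have hnot := h2 t r ((X - C t) * s1) hrt ht hr0 hs0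
      have hinv : (lam - algebraMap k E t)⁻¹ ∈ S := (H t).resolve_right hnot
      have e : aeval lam r / aeval lam ((X - C t) * s1) =
          (lam - algebraMap k E t)⁻¹ * (aeval lam r / aeval lam s1) := by
        rw [map_mul, map_sub, aeval_X, aeval_C]
        field_simp
      rw [e]
      refine mul_mem hinv (ih r s1 hs1 hr0 hs10 fun t' => ?_)
      rcases H t' with h | h
      · exact Or.inl h
      · right
        have e' : aeval lam r / aeval lam s1 =
            aeval lam r / aeval lam ((X - C t) * s1) * (lam - algebraMap k E t) := by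
          rw [e]
          field_simp
        rw [e']
        exact mul_mem h (sub_mem (h1 t') ((O t').algebraMap_mem t))

/-- Three vectors: a basis of the forms. -/
private theorem penpoly_basis {k : Type} [Field k] (w a c d : Fin 3 → k)
    (hac : LinearIndependent k ![a, c]) (ha : a ⬝ᵥ w = 0) (hc : c ⬝ᵥ w = 0) (hd : d ⬝ᵥ w ≠ 0) :
    LinearIndependent k ![a, c, d] ∧
      (∀ e : Fin 3 → k, ∃ x y z : k, e = x • a + y • c + z • d) ∧
      ∀ e : Fin 3 → k, e ⬝ᵥ w = 0 → ∃ x y : k, e = x • a + y • c := by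
  have hli : LinearIndependent k ![a, c, d] := by
    rw [Fintype.linearIndependent_iff]
    intro g hg
    rw [Fin.sum_univ_three] at hg
    have hg' : g 0 • a + g 1 • c + g 2 • d = 0 := hg
    have h1 : (g 0 • a + g 1 • c + g 2 • d) ⬝ᵥ w = 0 := by rw [hg', zero_dotProduct]
    rw [add_dotProduct, add_dotProduct, smul_dotProduct, smul_dotProduct, smul_dotProduct,
      ha, hc, smul_zero, smul_zero, zero_add, zero_add, smul_eq_mul] at h1
    have h2 : g 2 = 0 := (mul_eq_zero.1 h1).resolve_right hd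
    rw [h2, zero_smul, add_zero] at hg'
    obtain ⟨h3, h4⟩ := LinearIndependent.pair_iff.1 hac _ _ hg'
    intro i
    fin_cases i
    · exact h3
    · exact h4
    · exact h2
  have hsp : ∀ e : Fin 3 → k, ∃ x y z : k, e = x • a + y • c + z • d := by
    intro e
    have h1 := hli.span_eq_top_of_card_eq_finrank' (by simp)
    have h2 : e ∈ Submodule.span k (Set.range ![a, c, d]) := by
      rw [h1]
      exact Submodule.mem_top
    obtain ⟨g, hg⟩ := (Submodule.mem_span_range_iff_exists_fun k).1 h2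
    rw [Fin.sum_univ_three] at hg
    exact ⟨g 0, g 1, g 2, hg.symm⟩
  refine ⟨hli, hsp, ?_⟩
  intro e he
  obtain ⟨x, y, z, rfl⟩ := hsp e
  rw [add_dotProduct, add_dotProduct, smul_dotProduct, smul_dotProduct, smul_dotProduct,
    ha, hc, smul_zero, smul_zero, zero_add, zero_add, smul_eq_mul] at he
  have h2 : z = 0 := (mul_eq_zero.1 he).resolve_right hd
  exact ⟨x, y, by rw [h2, zero_smul, add_zero]⟩

private theorem penpoly_second {k : Type} [Field k] (w a : Fin 3 → k) (ha0 : a ≠ 0)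
    (hw : w ≠ 0) : ∃ c : Fin 3 → k, c ⬝ᵥ w = 0 ∧ LinearIndependent k ![a, c] := by
  let f : (Fin 3 → k) →ₗ[k] k :=
    { toFun := fun c => c ⬝ᵥ w
      map_add' := fun c d => add_dotProduct c d w
      map_smul' := fun x c => smul_dotProduct x c w }
  have h1 := LinearMap.finrank_range_add_finrank_ker f
  have h2 : Module.finrank k (LinearMap.range f) ≤ 1 := by
    have := Submodule.finrank_le (LinearMap.range f)
    rwa [Module.finrank_self] at this
  rw [Module.finrank_fin_fun] at h1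
  have h3 : ¬ LinearMap.ker f ≤ Submodule.span k {a} := by
    intro h
    have h4 := Submodule.finrank_mono h
    rw [finrank_span_singleton ha0] at h4
    omega
  obtain ⟨c, hc1, hc2⟩ := SetLike.not_le_iff_exists.1 h3
  refine ⟨c, hc1, ?_⟩
  rw [LinearIndependent.pair_iff' ha0]
  intro x hx
  exact hc2 (Submodule.mem_span_singleton.2 ⟨x, hx⟩)

/-- The local ring of the line `c = 0` through `P`. -/
private theorem penpoly_loc {k : Type} [Field k] (hEv : EvStmt) (hCoord : CoordStmt)
    (hLoc : LocStmt) (w a a1 d : Fin 3 → k) (ha0 : a ≠ 0)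
    (hac : LinearIndependent k ![a, a1]) (ha : a ⬝ᵥ w = 0) (ha1 : a1 ⬝ᵥ w = 0)
    (hd : d ⬝ᵥ w ≠ 0) (t : k) :
    ∃ O : Subalgebra k (F k), IsCurve O ∧ UnitForm O a ∧ (t ≠ 0 → UnitForm O a1) ∧
      (ev a1 / ev a) ∈ O ∧
      ∀ r s : k[X], r.eval t ≠ 0 → s.eval t = 0 → aeval (ev a1 / ev a) r ≠ 0 →
        aeval (ev a1 / ev a) s ≠ 0 →
        aeval (ev a1 / ev a) r / aeval (ev a1 / ev a) s ∉ O := by
  obtain ⟨hadd, hsmul, hev0⟩ := hEv k
  have hea : ev a ≠ 0 := fun h => ha0 ((hev0 a).1 h)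
  have hac' : LinearIndependent k ![a, a1 - t • a] := by
    rw [LinearIndependent.pair_iff] at hac ⊢
    intro x y hxy
    have h1 := hac (x - y * t) y (by
      rw [← hxy, smul_sub, smul_smul, sub_smul]
      abel)
    refine ⟨?_, h1.2⟩
    rw [h1.2, zero_mul, sub_zero] at h1
    exact h1.1
  have hct : (a1 - t • a) ⬝ᵥ w = 0 := by
    rw [sub_dotProduct, smul_dotProduct, ha, ha1, smul_zero, sub_zero]
  obtain ⟨hli, hsp, -⟩ := penpoly_basis w a (a1 - t • a) d hac' ha hct hd
  set z := ev (a1 - t • a) / ev a with hz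
  set v := ev d / ev a with hv
  have hco : IsCoord z v := (hCoord k a (a1 - t • a) d hli).1
  obtain ⟨⟨O, hO⟩, hO2⟩ := hLoc k z v hco (MvPolynomial.X 0) (MvPolynomial.X_prime).irreducible
  obtain ⟨hmem, hunit, -⟩ := hO2 O hO
  have hlam : ev a1 / ev a = z + algebraMap k (F k) t := by
    have h1 : ev a1 = ev (a1 - t • a) + algebraMap k (F k) t * ev a := by
      rw [← hsmul, ← hadd, sub_add_cancel]
    rw [h1, add_div, mul_div_assoc, div_self hea, mul_one]
  have hcm0 : cm z v (MvPolynomial.X 0) = z := by simp [cm]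
  have hcm1 : cm z v (MvPolynomial.X 1) = v := by simp [cm]
  have hcmC : ∀ x : k, cm z v (MvPolynomial.C x) = algebraMap k (F k) x := by
    intro x
    simp [cm]
  have hUa : ∀ c : Fin 3 → k, ev c / ev a ∈ O := by
    intro c
    obtain ⟨x, y, u, rfl⟩ := hsp c
    have h1 : ev (x • a + y • (a1 - t • a) + u • d) / ev a =
        cm z v (MvPolynomial.C x + MvPolynomial.C y * MvPolynomial.X 0 +
          MvPolynomial.C u * MvPolynomial.X 1) := by
      rw [map_add, map_add, map_mul, map_mul, hcm0, hcm1, hcmC, hcmC, hcmC, hadd, hadd, hsmul,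
        hsmul, hsmul, hz, hv]
      field_simp
    rw [h1]
    exact hmem _
  -- polynomials in lambda
  have hpoly : ∀ g : k[X], aeval (ev a1 / ev a) g =
      cm z v (aeval (MvPolynomial.X 0 + MvPolynomial.C t : MvPolynomial (Fin 2) k) g) := by
    intro g
    rw [← aeval_algHom_apply, map_add, hcm0, hcmC, hlam]
  have hdvd : ∀ g : k[X], g.eval t = 0 → (MvPolynomial.X 0 : MvPolynomial (Fin 2) k) ∣
      aeval (MvPolynomial.X 0 + MvPolynomial.C t : MvPolynomial (Fin 2) k) g := by
    intro g hg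
    obtain ⟨q, rfl⟩ := dvd_iff_isRoot.2 hg
    rw [map_mul, map_sub, aeval_X, aeval_C]
    refine Dvd.dvd.mul_right ?_ _
    rw [MvPolynomial.algebraMap_eq, add_sub_cancel_right]
  have hndvd : ∀ g : k[X], g.eval t ≠ 0 → ¬ (MvPolynomial.X 0 : MvPolynomial (Fin 2) k) ∣
      aeval (MvPolynomial.X 0 + MvPolynomial.C t : MvPolynomial (Fin 2) k) g := by
    rintro g hg ⟨q, hq⟩
    have h1 := congrArg (MvPolynomial.aeval (fun _ : Fin 2 => (0 : k))) hq
    rw [map_mul, MvPolynomial.aeval_X, zero_mul, ← aeval_algHom_apply, map_add,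
      MvPolynomial.aeval_X, MvPolynomial.aeval_C, zero_add] at h1
    apply hg
    rw [← h1]
    simp [coe_aeval_eq_eval]
  refine ⟨O, ⟨a, a1 - t • a, d, MvPolynomial.X 0, hli, hO⟩, ⟨ha0, hUa⟩, ?_, hUa a1, ?_⟩
  · intro ht
    have ha10 : a1 ≠ 0 := hac.ne_zero 1
    refine ⟨ha10, fun c => ?_⟩
    have hne : (MvPolynomial.X 0 + MvPolynomial.C t : MvPolynomial (Fin 2) k) ≠ 0 := by
      intro h
      apply hndvd X (by rw [eval_X]; exact ht)
      rw [aeval_X, h]
      exact dvd_zero _
    have h1 : (ev a1 / ev a)⁻¹ ∈ O := by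
      have h2 := (hunit _ hne).2 (by
        have h3 := hndvd X (by rw [eval_X]; exact ht)
        rwa [aeval_X] at h3)
      rwa [map_add, hcm0, hcmC, ← hlam] at h2
    have h4 : ev c / ev a1 = (ev c / ev a) * (ev a1 / ev a)⁻¹ := by
      have hea1 : ev a1 ≠ 0 := fun h => ha10 ((hev0 a1).1 h)
      field_simp
    rw [h4]
    exact mul_mem (hUa c) h1
  · intro r s hr hs hr0 hs0 hin
    rw [hpoly] at hr0 hs0
    rw [hpoly, hpoly] at hin
    have hrne : aeval (MvPolynomial.X 0 + MvPolynomial.C t : MvPolynomial (Fin 2) k) r ≠ 0 :=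
      fun h => hr0 (by rw [h, map_zero])
    have hsne : aeval (MvPolynomial.X 0 + MvPolynomial.C t : MvPolynomial (Fin 2) k) s ≠ 0 :=
      fun h => hs0 (by rw [h, map_zero])
    have h1 := (hunit _ hrne).2 (hndvd r hr)
    have h2 := mul_mem hin h1
    have h3 : (cm z v (aeval (MvPolynomial.X 0 + MvPolynomial.C t) r) /
        cm z v (aeval (MvPolynomial.X 0 + MvPolynomial.C t) s)) *
        (cm z v (aeval (MvPolynomial.X 0 + MvPolynomial.C t) r))⁻¹ =
        (cm z v (aeval (MvPolynomial.X 0 + MvPolynomial.C t) s))⁻¹ := by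
      field_simp
    rw [h3] at h2
    exact (hunit _ hsne).1 h2 (hdvd s hs)

/-- Elements of the pencil field are rational functions of `λ`. -/
private theorem penpoly_rat {k : Type} [Field k] (hEv : EvStmt) (P : Pt k) (a a1 : Fin 3 → k)
    (ha0 : a ≠ 0) (hsp : ∀ e : Fin 3 → k, e ⬝ᵥ P.rep = 0 → ∃ x y : k, e = x • a + y • a1)
    {f : F k} (hf : f ∈ PF P) :
    ∃ r s : k[X], f = aeval (ev a1 / ev a) r / aeval (ev a1 / ev a) s := by
  obtain ⟨hadd, hsmul, hev0⟩ := hEv k
  have hea : ev a ≠ 0 := fun h => ha0 ((hev0 a).1 h)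
  rw [← IntermediateField.mem_adjoin_simple_iff]
  have h1 : PF P ≤ IntermediateField.adjoin k {ev a1 / ev a} := by
    unfold PF
    rw [IntermediateField.adjoin_le_iff]
    rintro z ⟨c, c', hc, hc', rfl⟩
    have h2 : ∀ e : Fin 3 → k, e ⬝ᵥ P.rep = 0 →
        ev e / ev a ∈ IntermediateField.adjoin k {ev a1 / ev a} := by
      intro e he
      obtain ⟨x, y, rfl⟩ := hsp e he
      have h3 : ev (x • a + y • a1) / ev a =
          algebraMap k (F k) x + algebraMap k (F k) y * (ev a1 / ev a) := by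
        rw [hadd, hsmul, hsmul]
        field_simp
      rw [h3]
      exact add_mem (IntermediateField.algebraMap_mem _ x)
        (mul_mem (IntermediateField.algebraMap_mem _ y)
          (IntermediateField.subset_adjoin k _ rfl))
    have h4 : ev c / ev c' = (ev c / ev a) / (ev c' / ev a) := by
      rw [div_div_div_cancel_right₀ hea]
    change ev c / ev c' ∈ IntermediateField.adjoin k {ev a1 / ev a}
    rw [h4]
    exact div_mem (h2 c hc) (h2 c' hc')
  exact h1 hf

theorem tPenPoly : EvStmt → CoordStmt → LocStmt → UnifStmt → CurveStmt → PenPolyStmt := by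
  intro hEv hCoord hLoc _ _ k _ _ P f hf
  obtain ⟨hadd, hsmul, hev0⟩ := hEv k
  have hw : P.rep ≠ 0 := P.rep_nonzero
  obtain ⟨d, hd⟩ : ∃ d : Fin 3 → k, d ⬝ᵥ P.rep ≠ 0 := by
    obtain ⟨i, hi⟩ := Function.ne_iff.1 hw
    refine ⟨Pi.single i 1, ?_⟩
    rw [single_one_dotProduct]
    exact hi
  -- the main argument
  have main : ∀ (a a1 : Fin 3 → k) (S : Subalgebra k (F k)), a ≠ 0 → a ⬝ᵥ P.rep = 0 →
      a1 ⬝ᵥ P.rep = 0 → LinearIndependent k ![a, a1] → ev a1 / ev a ∈ S →
      (∀ t : k, (ev a1 / ev a - algebraMap k (F k) t)⁻¹ ∈ S ∨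
        ∀ O, IsCurve O → UnitForm O a → (t ≠ 0 → UnitForm O a1) → f ∈ O) → f ∈ S := by
    intro a a1 S ha0 ha ha1 hli hS H
    obtain ⟨-, -, hsp⟩ := penpoly_basis P.rep a a1 d hli ha ha1 hd
    obtain ⟨r, s, hrs⟩ := penpoly_rat hEv P a a1 ha0 hsp hf
    by_cases hr : aeval (ev a1 / ev a) r = 0
    · rw [hrs, hr, zero_div]
      exact zero_mem _
    by_cases hs : aeval (ev a1 / ev a) s = 0
    · rw [hrs, hs, div_zero]
      exact zero_mem _
    choose O hO1 hO2 hO3 hO4 hO5 using
      penpoly_loc hEv hCoord hLoc P.rep a a1 d ha0 hli ha ha1 hd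
    rw [hrs]
    refine penpoly_core (ev a1 / ev a) S hS O hO4 hO5 _ r s rfl hr hs fun t => ?_
    rcases H t with h | h
    · exact Or.inl h
    · right
      rw [← hrs]
      exact h (O t) (hO1 t) (hO2 t) (hO3 t)
  have one : ∀ a : Fin 3 → k, a ≠ 0 → a ⬝ᵥ P.rep = 0 →
      (∀ O, IsCurve O → UnitForm O a → f ∈ O) → f ∈ PR P a := by
    intro a ha0 ha H
    obtain ⟨a1, ha1, hli⟩ := penpoly_second P.rep a ha0 hw
    refine main a a1 (PR P a) ha0 ha ha1 hli ?_ fun t => Or.inr fun O h1 h2 _ => H O h1 h2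
    exact Algebra.subset_adjoin ⟨a1, ha1, rfl⟩
  refine ⟨one, ?_⟩
  intro a a' ha0 ha0' ha ha' H
  have hea : ev a ≠ 0 := fun h => ha0 ((hev0 a).1 h)
  have hea' : ev a' ≠ 0 := fun h => ha0' ((hev0 a').1 h)
  by_cases hli : LinearIndependent k ![a, a']
  · have m1 : ev a' / ev a ∈ PR P a ⊔ PR P a' :=
      (le_sup_left : PR P a ≤ PR P a ⊔ PR P a') (Algebra.subset_adjoin ⟨a', ha', rfl⟩)
    have m2 : ev a / ev a' ∈ PR P a ⊔ PR P a' :=
      (le_sup_right : PR P a' ≤ PR P a ⊔ PR P a') (Algebra.subset_adjoin ⟨a, ha, rfl⟩)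
    refine main a a' _ ha0 ha ha' hli m1 fun t => ?_
    by_cases ht : t = 0
    · left
      rw [ht, map_zero, sub_zero, inv_div]
      exact m2
    · right
      intro O h1 h2 h3
      exact H O h1 h2 (h3 ht)
  · rw [LinearIndependent.pair_iff' ha0] at hli
    push Not at hli
    obtain ⟨t, ht⟩ := hli
    have ht0 : t ≠ 0 := by
      rintro rfl
      rw [zero_smul] at ht
      exact ha0' ht.symm
    refine (le_sup_left : PR P a ≤ PR P a ⊔ PR P a') (one a ha0 ha fun O h1 h2 => ?_)
    refine H O h1 h2 ⟨ha0', fun c => ?_⟩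
    have h3 : ev c / ev a' = algebraMap k (F k) t⁻¹ * (ev c / ev a) := by
      rw [← ht, hsmul, map_inv₀]
      have : algebraMap k (F k) t ≠ 0 := by
        rw [Ne, map_eq_zero]
        exact ht0
      field_simp
    rw [h3]
    exact mul_mem (O.algebraMap_mem _) (h2.2 c)

end Pool.Agent.Lib.MP_4318ff_ag
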