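import Pool.Agent.Lib.MP_4318ff_ag.Spec.A3
import Pool.Agent.Lib.MP_4318ff_ag.A.RegLin
import Pool.Agent.Lib.MP_4318ff_ag.A.HartA

/-!
# MP_4318ff_ag, module C/Polar: the polar parts of the cochains on a pencil
-/

set_option autoImplicit false

namespace Pool.Agent.Lib.MP_4318ff_ag

open scoped LinearAlgebra.Projectivization

section polar

variable {k : Type} [Field k]

/-- The elements of the ring of a chart of a pencil are constants modulo `ℓ / a`. -/
theorem polar_split (P : Pt k) (l a : Fin 3 → k) (hl : l ⬝ᵥ P.rep = 0) (ha : a ⬝ᵥ P.rep = 0)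
    (hla : LinearIndependent k ![l, a]) (f : F k) (hf : f ∈ PR P a) :
    ∃ κ : k, ∃ g ∈ PR P a, f = algebraMap k (F k) κ + ev l / ev a * g := by
  have ha0 : ev a ≠ 0 := ev_ne_zero (hla.ne_zero 1)
  have hx : ev l / ev a ∈ PR P a := Algebra.subset_adjoin ⟨l, hl, rfl⟩
  unfold PR at hf
  induction hf using Algebra.adjoin_induction with
  | mem z hz =>
    obtain ⟨c, hc, rfl⟩ := hz
    obtain ⟨s, t, rfl⟩ := reglin_span l a c P.rep_nonzero hla hl ha hc
    refine ⟨t, algebraMap k (F k) s, (PR P a).algebraMap_mem s, ?_⟩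
    rw [ev_add, ev_smul, ev_smul]
    field_simp
    ring
  | algebraMap r => exact ⟨r, 0, zero_mem _, by rw [mul_zero, add_zero]⟩
  | add u v _ _ hu hv =>
    obtain ⟨κ, g, hg, rfl⟩ := hu
    obtain ⟨κ', g', hg', rfl⟩ := hv
    refine ⟨κ + κ', g + g', add_mem hg hg', ?_⟩
    rw [map_add]
    ring
  | mul u v _ _ hu hv =>
    obtain ⟨κ, g, hg, rfl⟩ := hu
    obtain ⟨κ', g', hg', rfl⟩ := hv
    refine ⟨κ * κ', algebraMap k (F k) κ * g' + algebraMap k (F k) κ' * g + ev l / ev a * (g * g'),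
      add_mem (add_mem (mul_mem ((PR P a).algebraMap_mem κ) hg')
        (mul_mem ((PR P a).algebraMap_mem κ') hg)) (mul_mem hx (mul_mem hg hg')), ?_⟩
    rw [map_mul]
    ring

/-- The line `l = 0` through `P`. -/
theorem polar_line (hLoc : LocStmt) (P : Pt k) (l a₀ : Fin 3 → k) (hl : l ⬝ᵥ P.rep = 0)
    (ha₀ : a₀ ⬝ᵥ P.rep = 0) (hla : LinearIndependent k ![l, a₀]) :
    ∃ O : Subalgebra k (F k), IsCurve O ∧ ∀ a : Fin 3 → k, a ⬝ᵥ P.rep = 0 →
      LinearIndependent k ![l, a] → (∀ c : Fin 3 → k, ev c / ev a ∈ O) ∧ (ev l / ev a)⁻¹ ∉ O := by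
  obtain ⟨i, hi⟩ := Function.ne_iff.mp P.rep_nonzero
  have hd : (Pi.single i (1 : k) : Fin 3 → k) ⬝ᵥ P.rep ≠ 0 := by
    rw [single_dotProduct, one_mul]
    exact hi
  set d : Fin 3 → k := Pi.single i (1 : k) with hdd
  have h3 : LinearIndependent k ![a₀, l, d] := by
    have hal : LinearIndependent k ![a₀, l] := by
      rw [LinearIndependent.pair_iff] at hla ⊢
      intro s t hst
      have := hla t s (by rw [add_comm]; exact hst)
      exact ⟨this.2, this.1⟩
    exact reglin_rot d a₀ l (reglin_three d a₀ l hal ha₀ hl hd)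
  have hco := isCoord_affine h3
  have hX : Irreducible (MvPolynomial.X 0 : MvPolynomial (Fin 2) k) :=
    MvPolynomial.X_prime.irreducible
  obtain ⟨⟨O, hO⟩, hO2⟩ := hLoc k _ _ hco (MvPolynomial.X 0) hX
  obtain ⟨hcm, hinv, hun⟩ := hO2 O hO
  have e0 : cm (ev l / ev a₀) (ev d / ev a₀) (MvPolynomial.X 0) = ev l / ev a₀ := by
    simp [cm]
  have e1 : cm (ev l / ev a₀) (ev d / ev a₀) (MvPolynomial.X 1) = ev d / ev a₀ := by
    simp [cm]
  have hz : ev l / ev a₀ ∈ O := by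
    rw [← e0]
    exact hcm _
  have hw : ev d / ev a₀ ∈ O := by
    rw [← e1]
    exact hcm _
  have hq : ∀ c, ev c / ev a₀ ∈ O := harta_quot h3 O hz hw
  have ha₀0 : ev a₀ ≠ 0 := ev_ne_zero (hla.ne_zero 1)
  have hl0 : ev l ≠ 0 := ev_ne_zero (hla.ne_zero 0)
  refine ⟨O, ⟨a₀, l, d, MvPolynomial.X 0, h3, hO⟩, ?_⟩
  intro a ha hl_a
  have ha0 : ev a ≠ 0 := ev_ne_zero (hl_a.ne_zero 1)
  obtain ⟨s, t, hst⟩ := reglin_span l a₀ a P.rep_nonzero hla hl ha₀ ha
  have ht : t ≠ 0 := by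
    rintro rfl
    rw [zero_smul, add_zero] at hst
    rw [LinearIndependent.pair_iff] at hl_a
    have := hl_a s (-1) (by rw [hst, neg_smul, one_smul, add_neg_cancel])
    exact absurd this.2 (by simp)
  have e2 : cm (ev l / ev a₀) (ev d / ev a₀) (MvPolynomial.C s * MvPolynomial.X 0 + MvPolynomial.C t) =
      ev a / ev a₀ := by
    rw [map_add, map_mul, e0, hst, ev_add, ev_smul, ev_smul]
    have h5 : ∀ r : k, cm (ev l / ev a₀) (ev d / ev a₀) (MvPolynomial.C r) = algebraMap k (F k) r := by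
      intro r
      simp [cm]
    rw [h5, h5]
    field_simp
  have hnd : ¬ (MvPolynomial.X 0 : MvPolynomial (Fin 2) k) ∣
      MvPolynomial.C s * MvPolynomial.X 0 + MvPolynomial.C t := by
    rintro ⟨q, hq⟩
    have := congrArg (MvPolynomial.eval (0 : Fin 2 → k)) hq
    simp at this
    exact ht this
  have hne : MvPolynomial.C s * MvPolynomial.X 0 + MvPolynomial.C t ≠ (0 : MvPolynomial (Fin 2) k) := by
    intro h
    exact hnd (by rw [h]; exact dvd_zero _)
  have h6 : (ev a / ev a₀)⁻¹ ∈ O := by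
    rw [← e2]
    exact (hinv _ hne).2 hnd
  rw [inv_div] at h6
  refine ⟨fun c => ?_, fun hcon => ?_⟩
  · have := mul_mem (hq c) h6
    rwa [div_mul_div_cancel₀ ha₀0] at this
  · rw [inv_div] at hcon
    have h7 := mul_mem h6 hcon
    rw [div_mul_div_cancel₀ ha0] at h7
    have h8 := hun.2.1
    rw [e0, inv_div] at h8
    exact h8 h7

end polar

theorem tPolar (hLoc : LocStmt) : PolarStmt := by
  intro k _ _ _ r C P hP ε η hε hη hd
  classical
  have key : ∀ i : Fin r, ∃ υ : Fin 3 → k, υ ⬝ᵥ P.rep = 0 ∧ (i ∈ C.through P →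
      ∀ a : Fin 3 → k, a ⬝ᵥ P.rep = 0 → LinearIndependent k ![C.ℓ i, a] →
      ∃ g ∈ PR P a, η a (ev (C.ℓ i) / ev a) = ev υ / ev a + ev (C.ℓ i) / ev a * g) := by
    intro i
    by_cases hi : i ∈ C.through P
    swap
    · exact ⟨0, zero_dotProduct _, fun h => absurd h hi⟩
    obtain ⟨j, hj, hji⟩ := reglin_other C P hP i
    have hiP : C.ℓ i ⬝ᵥ P.rep = 0 := hi
    have hjP : C.ℓ j ⬝ᵥ P.rep = 0 := hj
    have hij : LinearIndependent k ![C.ℓ i, C.ℓ j] := C.indep i j hji.symm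
    obtain ⟨O, hO, hO2⟩ := polar_line hLoc P (C.ℓ i) (C.ℓ j) hiP hjP hij
    have hPR : ∀ a : Fin 3 → k, a ⬝ᵥ P.rep = 0 → LinearIndependent k ![C.ℓ i, a] → PR P a ≤ O := by
      intro a ha hia
      refine Algebra.adjoin_le ?_
      rintro z ⟨c, -, rfl⟩
      exact (hO2 a ha hia).1 c
    have hj0 : C.ℓ j ≠ 0 := hij.ne_zero 1
    have hi0 : C.ℓ i ≠ 0 := hij.ne_zero 0
    obtain ⟨κ, g₀, hg₀, hκ⟩ := polar_split P (C.ℓ i) (C.ℓ j) hiP hjP hij _ (hη (C.ℓ j) (C.ℓ i) hj0 hjP hiP)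
    refine ⟨κ • C.ℓ j, by rw [smul_dotProduct, hjP, smul_zero], fun _ a ha hia => ?_⟩
    have ha0 : a ≠ 0 := hia.ne_zero 1
    have hea : ev a ≠ 0 := ev_ne_zero ha0
    have hej : ev (C.ℓ j) ≠ 0 := ev_ne_zero hj0
    have hei : ev (C.ℓ i) ≠ 0 := ev_ne_zero hi0
    obtain ⟨κ', g', hg', hκ'⟩ := polar_split P (C.ℓ i) a hiP ha hia _ (hη a (C.ℓ i) ha0 ha hiP)
    obtain ⟨s, t, hst⟩ := reglin_span (C.ℓ i) a (C.ℓ j) P.rep_nonzero hia hiP ha hjP
    set x : F k := ev (C.ℓ i) / ev a with hx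
    set y : F k := ev (C.ℓ j) / ev a with hy
    set z : F k := ev (C.ℓ i) / ev (C.ℓ j) with hz
    have hx0 : x ≠ 0 := div_ne_zero hei hea
    have hy0 : y ≠ 0 := div_ne_zero hej hea
    have hz0 : z ≠ 0 := div_ne_zero hei hej
    have hxzy : x = z * y := by
      rw [hx, hz, hy]
      field_simp
    have hyO : y ∈ O := (hO2 a ha hia).1 _
    have hyO' : y⁻¹ ∈ O := by
      rw [hy, inv_div]
      exact (hO2 (C.ℓ j) hjP hij).1 _
    -- the logarithmic regularity of `ε`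
    obtain ⟨-, hlog⟩ := hε (C.ℓ j) a hj0 ha0 hjP ha O (Or.inl hO) (hPR _ hjP hij) (hPR a ha hia)
    have ho₁ := hlog i hi j hj ((hO2 (C.ℓ j) hjP hij).1 _)
    have heq := hd (C.ℓ j) a hj0 ha0 hjP ha (C.ℓ i) (C.ℓ j) hiP hjP
    rw [← hz] at ho₁ heq
    rw [heq, Derivation.sub_apply] at ho₁
    set o₁ : F k := (η a z - η (C.ℓ j) z) / z with ho₁def
    have h1 : η a z = η (C.ℓ j) z + z * o₁ := by
      rw [ho₁def]
      field_simp
      ring
    have ho₂ : η a y ∈ O := hPR a ha hia (hη a (C.ℓ j) ha0 ha hjP)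
    have h2 : η a x = algebraMap k (F k) κ * y + x * (g₀ + o₁ + η a y * y⁻¹) := by
      rw [hxzy, Derivation.leibniz, smul_eq_mul, smul_eq_mul, h1, hκ]
      field_simp
      ring
    have hyx : y = algebraMap k (F k) s * x + algebraMap k (F k) t := by
      rw [hy, hst, ev_add, ev_smul, ev_smul, hx]
      field_simp
    have hO3 : g₀ + o₁ + η a y * y⁻¹ ∈ O :=
      add_mem (add_mem (hPR _ hjP hij hg₀) ho₁) (mul_mem ho₂ hyO')
    have hgO : g' ∈ O := hPR a ha hia hg'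
    have hkk : κ' = κ * t := by
      by_contra hne
      have hne' : κ' - κ * t ≠ 0 := sub_ne_zero.2 hne
      have h3 : algebraMap k (F k) (κ' - κ * t) =
          x * (algebraMap k (F k) (κ * s) + (g₀ + o₁ + η a y * y⁻¹) - g') := by
        have h4 : algebraMap k (F k) κ' + x * g' =
            algebraMap k (F k) κ * (algebraMap k (F k) s * x + algebraMap k (F k) t) +
              x * (g₀ + o₁ + η a y * y⁻¹) := by
          rw [← hκ', h2, ← hyx]
        rw [map_sub, map_mul, map_mul]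
        linear_combination h4
      have h5 : x⁻¹ = algebraMap k (F k) (κ' - κ * t)⁻¹ *
          (algebraMap k (F k) (κ * s) + (g₀ + o₁ + η a y * y⁻¹) - g') := by
        have hne2 : algebraMap k (F k) (κ' - κ * t) ≠ 0 := by
          intro h
          exact hne' ((map_eq_zero (algebraMap k (F k))).1 h)
        rw [map_inv₀, eq_inv_mul_iff_mul_eq₀ hne2, h3, mul_comm x, mul_inv_cancel_right₀ hx0]
      apply (hO2 a ha hia).2
      rw [← hx, h5]
      exact mul_mem (O.algebraMap_mem _) (sub_mem (add_mem (O.algebraMap_mem _) hO3) hgO)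
    refine ⟨g' - algebraMap k (F k) (κ * s), sub_mem hg' ((PR P a).algebraMap_mem _), ?_⟩
    rw [hκ', hkk, ev_smul, mul_div_assoc, ← hy, hyx, map_mul, map_mul]
    ring
  choose υ hυ1 hυ2 using key
  exact ⟨υ, hυ1, fun i hi a ha hia => hυ2 i hi a ha hia⟩

end Pool.Agent.Lib.MP_4318ff_ag
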