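import Pool.Agent.Lib.MP_4318ff_ag.Spec.A3

/-!
# MP_4318ff_ag, module `C/Split`: `H¹(P¹, Θ) = 0`
-/

set_option autoImplicit false

namespace Pool.Agent.Lib.MP_4318ff_ag

open scoped LinearAlgebra.Projectivization

/-! ### Forms through a point -/

/-- A basis of the forms through `P`. -/
private theorem split_perp {k : Type} [Field k] (P : Pt k) : ∃ a₀ a₁ : Fin 3 → k,
    LinearIndependent k ![a₀, a₁] ∧ a₀ ⬝ᵥ P.rep = 0 ∧ a₁ ⬝ᵥ P.rep = 0 ∧
    ∀ c : Fin 3 → k, c ⬝ᵥ P.rep = 0 → ∃ s t : k, c = s • a₀ + t • a₁ := by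
  classical
  let φ : (Fin 3 → k) →ₗ[k] k :=
    { toFun := fun c => c ⬝ᵥ P.rep
      map_add' := fun c d => add_dotProduct c d _
      map_smul' := fun t c => smul_dotProduct t c _ }
  have hφ : ∀ c, φ c = c ⬝ᵥ P.rep := fun _ => rfl
  have hsurj : LinearMap.range φ = ⊤ := by
    rw [LinearMap.range_eq_top]
    obtain ⟨i, hi⟩ : ∃ i, P.rep i ≠ 0 := by
      by_contra h
      push Not at h
      exact P.rep_nonzero (funext h)
    intro y
    refine ⟨Pi.single i (y / P.rep i), ?_⟩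
    rw [hφ, single_dotProduct, div_mul_cancel₀ _ hi]
  have hfr : Module.finrank k (LinearMap.ker φ) = 2 := by
    have h := LinearMap.finrank_range_add_finrank_ker φ
    rw [hsurj, finrank_top, Module.finrank_self, Module.finrank_fin_fun] at h
    omega
  let b := Module.finBasisOfFinrankEq k (LinearMap.ker φ) hfr
  refine ⟨(b 0).1, (b 1).1, ?_, (b 0).2, (b 1).2, fun c hc => ?_⟩
  · have h1 := b.linearIndependent.map' (LinearMap.ker φ).subtype
      (Submodule.ker_subtype _)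
    have h2 : (⇑(LinearMap.ker φ).subtype ∘ ⇑b) = ![(b 0).1, (b 1).1] := by
      funext i
      fin_cases i <;> rfl
    rwa [h2] at h1
  · have h3 := b.sum_repr ⟨c, hc⟩
    rw [Fin.sum_univ_two] at h3
    refine ⟨b.repr ⟨c, hc⟩ 0, b.repr ⟨c, hc⟩ 1, ?_⟩
    have h4 := congrArg Subtype.val h3
    exact h4.symm

private theorem split_ne {k : Type} [Field k] {a b : Fin 3 → k}
    (h : LinearIndependent k ![a, b]) : a ≠ 0 ∧ b ≠ 0 :=
  ⟨h.ne_zero 0, h.ne_zero 1⟩

private theorem split_swap {k : Type} [Field k] {a b : Fin 3 → k}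
    (h : LinearIndependent k ![a, b]) : LinearIndependent k ![b, a] := by
  rw [LinearIndependent.pair_iff] at h ⊢
  intro s t hst
  have := h t s (by rw [add_comm]; exact hst)
  exact ⟨this.2, this.1⟩

/-- Charts with a given form through `P`. -/
private theorem split_chart {k : Type} [Field k] {r : ℕ} (C : Config k r) (P : Pt k)
    (a : Fin 3 → k) (ha : a ≠ 0) (haP : a ⬝ᵥ P.rep = 0) : ∃ u : Chart C, u.a P = a := by
  classical
  have h1 : ∀ Q : Pt k, ∃ c : Fin 3 → k, c ≠ 0 ∧ c ⬝ᵥ Q.rep = 0 := by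
    intro Q
    obtain ⟨a₀, a₁, hli, h0, -, -⟩ := split_perp Q
    exact ⟨a₀, (split_ne hli).1, h0⟩
  choose f hf hf' using h1
  refine ⟨{ b := Pi.single 0 1
            b_ne := fun h => one_ne_zero (α := k) (by simpa using congrFun h 0)
            a := Function.update f P a
            a_ne := ?_
            a_through := ?_ }, ?_⟩
  · intro Q _
    by_cases h : Q = P
    · subst h
      rw [Function.update_self]
      exact ha
    · rw [Function.update_of_ne h]
      exact hf Q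
  · intro Q _
    by_cases h : Q = P
    · subst h
      rw [Function.update_self]
      exact haP
    · rw [Function.update_of_ne h]
      exact hf' Q
  · exact Function.update_self P a f

/-! ### Derivations on quotients of forms through a point -/

section pencil

variable {k : Type} [Field k] (hEv : EvStmt) {P : Pt k} {x y : Fin 3 → k}
  (hli : LinearIndependent k ![x, y]) (hx : x ⬝ᵥ P.rep = 0) (hy : y ⬝ᵥ P.rep = 0)
  (hspan : ∀ c : Fin 3 → k, c ⬝ᵥ P.rep = 0 → ∃ s t : k, c = s • x + t • y)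

include hEv hli hspan

private theorem split_val (c : Fin 3 → k) (hc : c ⬝ᵥ P.rep = 0) : ∃ s t : k,
    ev c / ev y = s • (ev x / ev y) + algebraMap k (F k) t ∧
    ∀ D : Derivation k (F k) (F k), D (ev c / ev y) = s • D (ev x / ev y) := by
  obtain ⟨s, t, rfl⟩ := hspan c hc
  obtain ⟨e1, e2, e3⟩ := hEv k
  have hy0 : ev y ≠ 0 := fun h => (split_ne hli).2 ((e3 y).1 h)
  have h1 : ev (s • x + t • y) / ev y = s • (ev x / ev y) + algebraMap k (F k) t := by
    rw [e1, e2, e2, add_div, mul_div_assoc, mul_div_assoc, div_self hy0, mul_one,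
      Algebra.smul_def]
  refine ⟨s, t, h1, fun D => ?_⟩
  rw [h1, D.map_add, D.map_smul, D.map_algebraMap, add_zero]

private theorem split_eq (D D' : Derivation k (F k) (F k))
    (h : D (ev x / ev y) = D' (ev x / ev y)) : EqOnF P D D' := by
  intro c c' hc hc'
  obtain ⟨e1, e2, e3⟩ := hEv k
  have hy0 : ev y ≠ 0 := fun h => (split_ne hli).2 ((e3 y).1 h)
  obtain ⟨s, t, -, h1⟩ := split_val hEv hli hspan c hc
  obtain ⟨s', t', -, h2⟩ := split_val hEv hli hspan c' hc'
  have h3 : ev c / ev c' = (ev c / ev y) / (ev c' / ev y) :=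
    (div_div_div_cancel_right₀ hy0 _ _).symm
  rw [h3, D.leibniz_div (ev c / ev y), D'.leibniz_div (ev c / ev y), h1 D, h1 D', h2 D, h2 D', h]

include hy in
private theorem split_PF (D : Derivation k (F k) (F k)) (h : D (ev x / ev y) ∈ PF P)
    (c c' : Fin 3 → k) (hc : c ⬝ᵥ P.rep = 0) (hc' : c' ⬝ᵥ P.rep = 0) :
    D (ev c / ev c') ∈ PF P := by
  obtain ⟨e1, e2, e3⟩ := hEv k
  have hy0 : ev y ≠ 0 := fun h => (split_ne hli).2 ((e3 y).1 h)
  obtain ⟨s, t, -, h1⟩ := split_val hEv hli hspan c hc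
  obtain ⟨s', t', -, h2⟩ := split_val hEv hli hspan c' hc'
  have h3 : ev c / ev c' = (ev c / ev y) / (ev c' / ev y) :=
    (div_div_div_cancel_right₀ hy0 _ _).symm
  have h4 : ∀ c : Fin 3 → k, c ⬝ᵥ P.rep = 0 → ev c / ev y ∈ PF P := fun c hc =>
    IntermediateField.subset_adjoin _ _ ⟨c, y, hc, hy, rfl⟩
  rw [h3, D.leibniz_div (ev c / ev y), h1 D, h2 D, smul_eq_mul, smul_eq_mul, smul_eq_mul]
  exact (PF P).mul_mem ((PF P).pow_mem ((PF P).inv_mem (h4 c' hc')) 2)
    ((PF P).sub_mem ((PF P).mul_mem (h4 c' hc') ((PF P).smul_mem h))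
      ((PF P).mul_mem (h4 c hc) ((PF P).smul_mem h)))

private theorem split_O (O : Subalgebra k (F k)) (D : Derivation k (F k) (F k))
    (h : D (ev x / ev y) ∈ O) (a c : Fin 3 → k) (hc : c ⬝ᵥ P.rep = 0) (ha : a ⬝ᵥ P.rep = 0)
    (hya : UnitForm O y) (haa : UnitForm O a) : D (ev c / ev a) ∈ O := by
  obtain ⟨e1, e2, e3⟩ := hEv k
  have hy0 : ev y ≠ 0 := fun h => (split_ne hli).2 ((e3 y).1 h)
  obtain ⟨s, t, -, h1⟩ := split_val hEv hli hspan c hc
  obtain ⟨s', t', -, h2⟩ := split_val hEv hli hspan a ha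
  have h3 : ev c / ev a = (ev c / ev y) / (ev a / ev y) :=
    (div_div_div_cancel_right₀ hy0 _ _).symm
  have h5 : (ev a / ev y)⁻¹ ∈ O := by
    rw [inv_div]
    exact haa.2 y
  rw [h3, D.leibniz_div (ev c / ev y), h1 D, h2 D, smul_eq_mul, smul_eq_mul, smul_eq_mul]
  exact O.mul_mem (O.pow_mem h5 2) (O.sub_mem (O.mul_mem (hya.2 a) (O.smul_mem h _))
    (O.mul_mem (hya.2 c) (O.smul_mem h _)))

omit hspan in
/-- A derivation with a given value. -/
private theorem split_der [CharZero k] (hD : DerVStmt) (g : F k) :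
    ∃ D : Derivation k (F k) (F k), D (ev x / ev y) = g := by
  obtain ⟨e1, e2, e3⟩ := hEv k
  have hy0 : ev y ≠ 0 := fun h => (split_ne hli).2 ((e3 y).1 h)
  -- a vector `w` with `x w = 1`, `y w = 0`
  obtain ⟨w, hw1, hw2⟩ : ∃ w : Fin 3 → k, x ⬝ᵥ w = 1 ∧ y ⬝ᵥ w = 0 := by
    obtain ⟨φ, hφ⟩ : ∃ φ : (Fin 3 → k) →ₗ[k] k, φ x = 1 ∧ φ y = 0 := by
      have hx' : x ∉ Submodule.span k {y} := by
        intro h
        obtain ⟨t, ht⟩ := Submodule.mem_span_singleton.1 h
        rw [LinearIndependent.pair_iff] at hli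
        have := hli 1 (-t) (by rw [one_smul, neg_smul, ht, add_neg_cancel])
        exact one_ne_zero this.1
      obtain ⟨f, hf1, hf2⟩ := Submodule.exists_le_ker_of_notMem hx'
      refine ⟨(f x)⁻¹ • f, ?_, ?_⟩
      · rw [LinearMap.smul_apply, smul_eq_mul, inv_mul_cancel₀ hf1]
      · rw [LinearMap.smul_apply, smul_eq_mul]
        have h6 : f y = 0 := hf2 (Submodule.mem_span_singleton_self y)
        rw [h6, mul_zero]
    have h8 : ∀ z : Fin 3 → k, z ⬝ᵥ (fun i => φ (Pi.single i 1)) = φ z := by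
      intro z
      rw [LinearMap.pi_apply_eq_sum_univ φ z]
      simp only [dotProduct, smul_eq_mul]
      refine Finset.sum_congr rfl fun i _ => ?_
      congr 2
      funext j
      rw [Pi.single_apply]
      by_cases hij : i = j
      · rw [if_pos hij, if_pos hij.symm]
      · rw [if_neg hij, if_neg fun h => hij h.symm]
    exact ⟨fun i => φ (Pi.single i 1), (h8 x).trans hφ.1, (h8 y).trans hφ.2⟩
  obtain ⟨E, hE⟩ := hD k (F k) (fun i => g * ev y * algebraMap k (F k) (w i))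
  have hE' : ∀ c : Fin 3 → k, E (ev c) = g * ev y * algebraMap k (F k) (c ⬝ᵥ w) -
      g * ev y * algebraMap k (F k) (w 0) * ev c := by
    intro c
    have h := hE c
    have h7 : algebraMap (F k) (F k) (ev c) = ev c := rfl
    rw [h7] at h
    rw [h]
    congr 1
    rw [dotProduct, map_sum, Finset.mul_sum]
    refine Finset.sum_congr rfl fun i _ => ?_
    rw [map_mul]
    ring
  refine ⟨E, ?_⟩
  rw [Derivation.leibniz_div, hE', hE', hw1, hw2, map_one, map_zero, smul_eq_mul, smul_eq_mul,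
    smul_eq_mul]
  field_simp
  ring

/-- The sum of the two coordinate rings. -/
private theorem split_sum (hx : x ⬝ᵥ P.rep = 0) (hy : y ⬝ᵥ P.rep = 0) (f : F k)
    (hf : f ∈ PR P x ⊔ PR P y) : ∃ g ∈ PR P y, ∃ h ∈ PR P x, f = g + h := by
  obtain ⟨e1, e2, e3⟩ := hEv k
  have hx0 : ev x ≠ 0 := fun h => (split_ne hli).1 ((e3 x).1 h)
  have hy0 : ev y ≠ 0 := fun h => (split_ne hli).2 ((e3 y).1 h)
  set l := ev x / ev y with hl
  have hl0 : l ≠ 0 := div_ne_zero hx0 hy0
  have hl1 : l ∈ PR P y := Algebra.subset_adjoin ⟨x, hx, rfl⟩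
  have hl2 : l⁻¹ ∈ PR P x := Algebra.subset_adjoin ⟨y, hy, by rw [hl, inv_div]⟩
  have h1 : PR P x ⊔ PR P y ≤ Algebra.adjoin k ({l, l⁻¹} : Set (F k)) := by
    have hL : l ∈ Algebra.adjoin k ({l, l⁻¹} : Set (F k)) :=
      Algebra.subset_adjoin (Set.mem_insert _ _)
    have hL' : l⁻¹ ∈ Algebra.adjoin k ({l, l⁻¹} : Set (F k)) :=
      Algebra.subset_adjoin (Set.mem_insert_of_mem _ rfl)
    refine sup_le (Algebra.adjoin_le ?_) (Algebra.adjoin_le ?_)
    · rintro z ⟨c, hc, rfl⟩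
      obtain ⟨s, t, rfl⟩ := hspan c hc
      have h2 : ev (s • x + t • y) / ev x = algebraMap k (F k) s + t • l⁻¹ := by
        rw [e1, e2, e2, add_div, mul_div_assoc, mul_div_assoc, div_self hx0, mul_one, hl, inv_div,
          Algebra.smul_def]
      rw [h2]
      exact Subalgebra.add_mem _ (Subalgebra.algebraMap_mem _ s) (Subalgebra.smul_mem _ hL' t)
    · rintro z ⟨c, hc, rfl⟩
      obtain ⟨s, t, rfl⟩ := hspan c hc
      have h2 : ev (s • x + t • y) / ev y = s • l + algebraMap k (F k) t := by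
        rw [e1, e2, e2, add_div, mul_div_assoc, mul_div_assoc, div_self hy0, mul_one, hl,
          Algebra.smul_def]
      rw [h2]
      exact Subalgebra.add_mem _ (Subalgebra.smul_mem _ hL s) (Subalgebra.algebraMap_mem _ t)
  have h3 : f ∈ Submodule.span k ((Submonoid.closure ({l, l⁻¹} : Set (F k)) : Submonoid (F k)) :
      Set (F k)) := by
    rw [← Algebra.adjoin_eq_span]
    exact h1 hf
  let N : Submonoid (F k) :=
    { carrier := {z | ∃ n : ℤ, z = l ^ n}
      mul_mem' := by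
        rintro _ _ ⟨n, rfl⟩ ⟨m, rfl⟩
        exact ⟨n + m, (zpow_add₀ hl0 n m).symm⟩
      one_mem' := ⟨0, (zpow_zero l).symm⟩ }
  have h4 : Submonoid.closure ({l, l⁻¹} : Set (F k)) ≤ N := by
    rw [Submonoid.closure_le]
    rintro z (rfl | hz)
    · exact ⟨1, (zpow_one l).symm⟩
    · rw [Set.mem_singleton_iff] at hz
      exact ⟨-1, by rw [hz, zpow_neg_one]⟩
  have h5 : Submodule.span k ((Submonoid.closure ({l, l⁻¹} : Set (F k)) : Submonoid (F k)) :
      Set (F k)) ≤ Subalgebra.toSubmodule (PR P y) ⊔ Subalgebra.toSubmodule (PR P x) := by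
    rw [Submodule.span_le]
    intro z hz
    obtain ⟨n, rfl⟩ := h4 hz
    rcases n with n | n
    · refine Submodule.mem_sup_left ?_
      rw [Int.ofNat_eq_natCast, zpow_natCast]
      exact (PR P y).pow_mem hl1 n
    · refine Submodule.mem_sup_right ?_
      rw [zpow_negSucc, ← inv_pow]
      exact (PR P x).pow_mem hl2 _
  obtain ⟨g, hg, h, hh, hgh⟩ := Submodule.mem_sup.1 (h5 h3)
  exact ⟨g, hg, h, hh, hgh.symm⟩

end pencil

private theorem split_PRle {k : Type} [Field k] {P : Pt k} {O : Subalgebra k (F k)}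
    {a : Fin 3 → k} (h : UnitForm O a) : PR P a ≤ O := by
  refine Algebra.adjoin_le ?_
  rintro z ⟨c, -, rfl⟩
  exact h.2 c

private theorem split_PRPF {k : Type} [Field k] {P : Pt k} {a : Fin 3 → k}
    (ha : a ⬝ᵥ P.rep = 0) {z : F k} (hz : z ∈ PR P a) : z ∈ PF P := by
  have h : PR P a ≤ (PF P).toSubalgebra := by
    refine Algebra.adjoin_le ?_
    rintro z ⟨c, hc, rfl⟩
    exact IntermediateField.subset_adjoin _ _ ⟨c, a, hc, ha, rfl⟩
  exact h hz

/-- **`H¹(P¹, Θ) = 0`.** -/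
theorem tSplit : EvStmt → CoordStmt → CurveStmt → PenPolyStmt → DerVStmt → SplitStmt := by
  intro hEv _ hCurve hPoly hD k _ _ _ r C P _ D hcoc δ ε h1 h2
  obtain ⟨x, y, hli, hx, hy, hspan⟩ := split_perp P
  obtain ⟨hx0, hy0⟩ := split_ne hli
  obtain ⟨e1, e2, e3⟩ := hEv k
  have hex0 : ev x ≠ 0 := fun h => hx0 ((e3 x).1 h)
  have hey0 : ev y ≠ 0 := fun h => hy0 ((e3 y).1 h)
  have hspan' : ∀ c : Fin 3 → k, c ⬝ᵥ P.rep = 0 → ∃ s t : k, c = s • y + t • x := by
    intro c hc
    obtain ⟨s, t, h⟩ := hspan c hc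
    exact ⟨t, s, by rw [h, add_comm]⟩
  have hli' := split_swap hli
  -- the cocycle identity for `ε`
  have hε : ∀ a a' a'' : Fin 3 → k, a ≠ 0 → a' ≠ 0 → a'' ≠ 0 → a ⬝ᵥ P.rep = 0 →
      a' ⬝ᵥ P.rep = 0 → a'' ⬝ᵥ P.rep = 0 → ∀ c c' : Fin 3 → k, c ⬝ᵥ P.rep = 0 →
      c' ⬝ᵥ P.rep = 0 →
      ε a a' (ev c / ev c') + ε a' a'' (ev c / ev c') = ε a a'' (ev c / ev c') := by
    intro a a' a'' ha ha' ha'' hp hp' hp'' c c' hc hc'
    obtain ⟨u, hu⟩ := split_chart C P a ha hp
    obtain ⟨v, hv⟩ := split_chart C P a' ha' hp'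
    obtain ⟨w, hw⟩ := split_chart C P a'' ha'' hp''
    have q1 := h2 u v c c' hc hc'
    have q2 := h2 v w c c' hc hc'
    have q3 := h2 u w c c' hc hc'
    rw [hu, hv] at q1
    rw [hv, hw] at q2
    rw [hu, hw, ← hcoc u v w] at q3
    rw [Derivation.add_apply, Derivation.sub_apply] at q1 q2
    rw [Derivation.add_apply, Derivation.add_apply, Derivation.sub_apply, q1, q2] at q3
    linear_combination q3
  have hneg : ∀ a a' : Fin 3 → k, a ≠ 0 → a' ≠ 0 → a ⬝ᵥ P.rep = 0 → a' ⬝ᵥ P.rep = 0 →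
      ∀ c c' : Fin 3 → k, c ⬝ᵥ P.rep = 0 → c' ⬝ᵥ P.rep = 0 →
      ε a a' (ev c / ev c') = - ε a' a (ev c / ev c') := by
    intro a a' ha ha' hp hp' c c' hc hc'
    have q1 := hε a a' a ha ha' ha hp hp' hp c c' hc hc'
    have q2 := hε a a a ha ha ha hp hp hp c c' hc hc'
    linear_combination q1 + q2
  -- the value on `x / y`
  have hp : ε x y (ev x / ev y) ∈ PR P x ⊔ PR P y := by
    refine (hPoly k P _ ((h1 x y hx0 hy0 hx hy).2 x y hx hy)).2 x y hx0 hy0 hx hy ?_
    intro O hO hux huy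
    exact ((h1 x y hx0 hy0 hx hy).1 O (Or.inl hO) (split_PRle hux) (split_PRle huy)).1 x y hx hy
      (huy.2 x)
  obtain ⟨g, hg, h, hh, hgh⟩ := split_sum hEv hli hspan hx hy _ hp
  have hyx : ev y / ev x ∈ PR P x := Algebra.subset_adjoin ⟨y, hy, rfl⟩
  obtain ⟨η₁, hη₁⟩ := split_der hEv hli hD g
  obtain ⟨η₀, hη₀⟩ := split_der hEv hli' hD (h * (ev y / ev x) ^ 2)
  have hη₀' : η₀ (ev x / ev y) = -h := by
    have q : ev x / ev y = (ev y / ev x)⁻¹ := by rw [inv_div]
    rw [q, Derivation.leibniz_inv, hη₀, smul_eq_mul]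
    have hne : ev y / ev x ≠ 0 := div_ne_zero hey0 hex0
    field_simp
  -- `ε x y = η₁ - η₀` along the pencil
  have hxy : EqOnF P (ε x y) (η₁ - η₀) := by
    refine split_eq hEv hli hspan _ _ ?_
    rw [Derivation.sub_apply, hη₁, hη₀', hgh]
    ring
  have hh0 : η₀ (ev y / ev x) ∈ PR P x := by
    rw [hη₀]
    exact (PR P x).mul_mem hh ((PR P x).pow_mem hyx 2)
  refine ⟨fun a => η₀ - ε a x, ?_, ?_⟩
  · intro a c ha hap hc
    refine (hPoly k P _ ?_).1 a ha hap ?_
    · rw [Derivation.sub_apply]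
      exact (PF P).sub_mem (split_PF hEv hli' hx hspan' η₀ (split_PRPF hx hh0) c a hc hap)
        ((h1 a x ha hx0 hap hx).2 c a hc hap)
    · intro O hO hua
      rcases (hCurve k O hO).2.2.1 x hx0 with hux | hux
      · rw [Derivation.sub_apply]
        refine O.sub_mem ?_ ?_
        · exact split_O hEv hli' hspan' O η₀ (split_PRle hux hh0) a c hc hap hux hua
        · exact ((h1 a x ha hx0 hap hx).1 O (Or.inl hO) (split_PRle hua) (split_PRle hux)).1 c a
            hc hap (hua.2 c)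
      · have huy := (hux y hli).1
        have q1 := hε a x y ha hx0 hy0 hap hx hy c a hc hap
        have q2 := hxy c a hc hap
        rw [Derivation.sub_apply] at q2
        have q3 : (η₀ - ε a x) (ev c / ev a) = η₁ (ev c / ev a) - ε a y (ev c / ev a) := by
          rw [Derivation.sub_apply]
          linear_combination q2 - q1
        rw [q3]
        refine O.sub_mem ?_ ?_
        · refine split_O hEv hli hspan O η₁ ?_ a c hc hap huy hua
          rw [hη₁]
          exact split_PRle huy hg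
        · exact ((h1 a y ha hy0 hap hy).1 O (Or.inl hO) (split_PRle hua) (split_PRle huy)).1 c a
            hc hap (hua.2 c)
  · intro a a' ha ha' hap hap' c c' hc hc'
    have q1 := hε a x a' ha hx0 ha' hap hx hap' c c' hc hc'
    have q2 := hneg x a' hx0 ha' hx hap' c c' hc hc'
    rw [Derivation.sub_apply, Derivation.sub_apply, Derivation.sub_apply]
    linear_combination q2 - q1

end Pool.Agent.Lib.MP_4318ff_ag
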