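import Pool.Agent.Lib.MP_4318ff_ag.Spec.A3

set_option autoImplicit false

namespace Pool.Agent.Lib.MP_4318ff_ag

open scoped LinearAlgebra.Projectivization

section casec

variable {k : Type} [Field k] {K : Type} [Field K] [Algebra (F k) K] [Algebra k K]
  [IsScalarTower k (F k) K]

open Classical in
private theorem casec_avg [FiniteDimensional (F k) K] (N : Subgroup (K ≃ₐ[F k] K))
    (D : Derivation k K K) (f : F k) :
    avgD N D (algebraMap (F k) K f) =
      ((Finset.univ.filter (fun g : K ≃ₐ[F k] K => g ∈ N)).card : k)⁻¹ •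
        ∑ g ∈ Finset.univ.filter (fun g : K ≃ₐ[F k] K => g ∈ N), g (D (algebraMap (F k) K f)) := by
  unfold avgD
  rw [Derivation.smul_apply]
  congr 1
  rw [← Derivation.coeFnAddMonoidHom_apply, map_sum, Finset.sum_apply]
  refine Finset.sum_congr rfl fun g _ => ?_
  show g (D (g.symm (algebraMap (F k) K f))) = _
  rw [AlgEquiv.commutes]

private theorem casec_eqOn [FiniteDimensional (F k) K] (N : Subgroup (K ≃ₐ[F k] K)) (P : Pt k)
    (D D' : Derivation k K K) (h : EqOn P D D') : EqOn P (avgD N D) (avgD N D') := by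
  intro c c' hc hc'
  rw [casec_avg, casec_avg, h c c' hc hc']

private theorem casec_alg (P : Pt k) (g : K ≃ₐ[F k] K) (y : K) (hy : IsAlgebraic (PF P) y) :
    IsAlgebraic (PF P) (g y) := by
  obtain ⟨p, hp, h⟩ := hy
  refine ⟨p, hp, ?_⟩
  have h1 : Polynomial.aeval (g y) p = g (Polynomial.aeval y p) :=
    Polynomial.aeval_algHom_apply (g.toAlgHom.restrictScalars (PF P)) y p
  rw [h1, h, map_zero]

private theorem casec_algAvg [FiniteDimensional (F k) K] (N : Subgroup (K ≃ₐ[F k] K)) (P : Pt k)
    (D : Derivation k K K) (f : F k) (h : IsAlgebraic (PF P) (D (algebraMap (F k) K f))) :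
    IsAlgebraic (PF P) (avgD N D (algebraMap (F k) K f)) := by
  rw [casec_avg, ← mem_algebraicClosure_iff, Algebra.smul_def]
  refine mul_mem ?_ (sum_mem fun g _ => ?_)
  · have h1 : ∀ c : k, algebraMap k K c = algebraMap (PF P) K (algebraMap k (PF P) c) := by
      intro c
      rw [IsScalarTower.algebraMap_apply k (F k) K]
      rfl
    rw [h1]
    exact (algebraicClosure (PF P) K).algebraMap_mem _
  · rw [mem_algebraicClosure_iff]
    exact casec_alg P g _ h

private theorem casec_point (P : Pt k) : ∃ Q : Pt k, P ≠ Q := by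
  by_contra hno
  push Not at hno
  have e0 : (Pi.single 0 1 : Fin 3 → k) ≠ 0 := by
    intro h
    have := congrFun h 0
    simp at this
  have e1 : (Pi.single 1 1 : Fin 3 → k) ≠ 0 := by
    intro h
    have := congrFun h 1
    simp at this
  have h := (hno (Projectivization.mk k _ e0)).symm.trans (hno (Projectivization.mk k _ e1))
  rw [Projectivization.mk_eq_mk_iff'] at h
  obtain ⟨a, ha⟩ := h
  have := congrFun ha 0
  simp at this

end casec

theorem tCaseC (h1 : AvgStmt) (h2 : RegModStmt) (h3 : AlgClStmt) (h4 : DescStmt)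
    (h5 : CaseFStmt) : CaseCStmt := by
  intro k _ _ _ r n C K _ _ _ _ _ _ hrig hr6 hn2 hroots D hcoc hinv hExt
  obtain ⟨a1, a2, a3, a4, a5, a6, a7, a8, a9, a10⟩ := h1 k K
  obtain ⟨d1, d2⟩ := h4 k r n C K hn2 hroots
  have hinj : Function.Injective (algebraMap (F k) K) := (algebraMap (F k) K).injective
  -- the descent of D
  choose δD hδD _ using fun u v => d1 (D u v) (fun g => hinv g u v)
  -- the averages
  have hreg : ∀ (P : Pt k) (O : Subalgebra k (F k)) (X : Derivation k K K), RegAt C n P O X →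
      RegAt C n P O (avgD ⊤ X) := by
    intro P O X hX
    obtain ⟨W, hW, hg⟩ := (h2 k r n C K).2.1 P O
    rw [← hW] at hX ⊢
    exact a8 ⊤ W (fun g _ Y hY => hg g Y hY) X hX
  choose av hav havr using fun X : Derivation k K K =>
    d1 (avgD ⊤ X) (fun g => a6 ⊤ X g (Subgroup.mem_top g))
  have hcocF : ∀ u v w, δD u v + δD v w = δD u w := by
    intro u v w
    refine Derivation.ext fun f => hinj ?_
    rw [Derivation.add_apply, map_add, ← hδD, ← hδD, ← hδD, ← hcoc u v w, Derivation.add_apply]
  have hF : ∀ P ∈ C.M, ExtF P δD := by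
    intro P hP
    obtain ⟨Δ, E, hΔ, hE, hD⟩ := hExt P hP
    refine ⟨fun u => av (Δ u), fun a a' => av (E a a'), ?_, ?_, ?_⟩
    · intro u O hO hu
      exact havr (Δ u) P O hO (hreg P O _ (hΔ u O hO hu))
    · intro a a' ha ha' haP haP'
      obtain ⟨e1, e2⟩ := hE a a' ha ha' haP haP'
      refine ⟨fun O hO h6 h7 => havr _ P O hO (hreg P O _ (e1 O hO h6 h7)), ?_⟩
      intro c c' hc hc'
      have h8 := casec_algAvg ⊤ P (E a a') (ev c / ev c') (e2 c c' hc hc')
      rw [hav] at h8
      obtain ⟨Q, hQ⟩ := casec_point P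
      obtain ⟨f, hf, hff⟩ := h3 k K P Q _ hQ h8 (IntermediateField.algebraMap_mem _ _)
      rw [hinj hff]
      exact hf
    · intro u v c c' hc hc'
      have h9 := casec_eqOn ⊤ P _ _ (hD u v)
      have h10 := h9 c c' hc hc'
      rw [a7 ⊤ (D u v) (fun g _ => hinv g u v), a4, a5, Derivation.add_apply, Derivation.sub_apply,
        hδD, hav, hav, hav, ← map_sub, ← map_add] at h10
      rw [hinj h10, Derivation.add_apply, Derivation.sub_apply]
  intro P hP
  obtain ⟨δ', hδ', hEq⟩ := h5 k r C hrig hr6 δD hcocF hF P hP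
  choose up hup hupr using d2
  refine ⟨fun u => up (δ' u), fun u O hO hu => hupr _ P O (hδ' u O hO hu), ?_⟩
  intro u v c c' hc hc'
  have h11 := hEq u v c c' hc hc'
  rw [hδD, h11, Derivation.sub_apply, Derivation.sub_apply, map_sub, hup, hup]

end Pool.Agent.Lib.MP_4318ff_ag
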